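import Mathlib

set_option autoImplicit false

namespace Pool.Agent.Lib.SymZF

/-- First-order formulas of the language of set theory, with de Bruijn variables. -/
inductive Fml : Type
  | bot : Fml
  | mem (i j : ℕ) : Fml
  | eq (i j : ℕ) : Fml
  | imp (φ ψ : Fml) : Fml
  | all (φ : Fml) : Fml
deriving Countable

/-- Put `x` in front of the sequence `v` (the value of variable `0` becomes `x`). -/
def scons {α : Type*} (x : α) (v : ℕ → α) : ℕ → α
  | 0 => x
  | n + 1 => v n

/-- Tarski satisfaction of a formula in the structure `(M, E)` under the assignment `v`. -/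
def Sat {M : Type} (E : M → M → Prop) : Fml → (ℕ → M) → Prop
  | .bot, _ => False
  | .mem i j, v => E (v i) (v j)
  | .eq i j, v => v i = v j
  | .imp φ ψ, v => Sat E φ v → Sat E ψ v
  | .all φ, v => ∀ x : M, Sat E φ (scons x v)

/-- `(M, E)` is a model of Zermelo–Fraenkel set theory `ZF` (`E` interprets membership). -/
structure IsZF {M : Type} (E : M → M → Prop) : Prop where
  /-- extensionality -/
  ext : ∀ x y, (∀ z, E z x ↔ E z y) → x = y
  /-- foundation -/
  found : ∀ x, (∃ y, E y x) → ∃ y, E y x ∧ ∀ z, E z y → ¬ E z x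
  /-- pairing -/
  pair : ∀ x y, ∃ p, ∀ z, E z p ↔ z = x ∨ z = y
  /-- union -/
  union : ∀ x, ∃ u, ∀ z, E z u ↔ ∃ y, E y x ∧ E z y
  /-- power set -/
  power : ∀ x, ∃ p, ∀ z, E z p ↔ ∀ t, E t z → E t x
  /-- infinity -/
  infinity : ∃ w, (∃ e, (∀ z, ¬ E z e) ∧ E e w) ∧
    ∀ x, E x w → ∃ s, (∀ z, E z s ↔ E z x ∨ z = x) ∧ E s w
  /-- separation schema (with parameters `v`) -/
  sep : ∀ (φ : Fml) (v : ℕ → M) (x : M), ∃ y, ∀ z, E z y ↔ E z x ∧ Sat E φ (scons z v)
  /-- replacement schema (with parameters `v`) -/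
  repl : ∀ (φ : Fml) (v : ℕ → M) (x : M),
    (∀ a, E a x → ∃! b, Sat E φ (scons b (scons a v))) →
    ∃ y, ∀ b, E b y ↔ ∃ a, E a x ∧ Sat E φ (scons b (scons a v))

end Pool.Agent.Lib.SymZF
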