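import Mathlib
import Pool.Agent.Lib.SymZF.ZF

set_option autoImplicit false

namespace Pool.Agent.Lib.SymZF

namespace Fml

/-- negation -/
def neg (φ : Fml) : Fml := .imp φ .bot
/-- conjunction -/
def and (φ ψ : Fml) : Fml := neg (.imp φ (neg ψ))
/-- disjunction -/
def or (φ ψ : Fml) : Fml := .imp (neg φ) ψ
/-- equivalence -/
def iff (φ ψ : Fml) : Fml := and (.imp φ ψ) (.imp ψ φ)
/-- existential quantifier -/
def ex (φ : Fml) : Fml := neg (.all (neg φ))

/-- Lift a renaming of variables under a quantifier. -/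
def lift (f : ℕ → ℕ) : ℕ → ℕ
  | 0 => 0
  | n + 1 => f n + 1

/-- Renaming of variables. -/
def ren : (ℕ → ℕ) → Fml → Fml
  | _, .bot => .bot
  | f, .mem i j => .mem (f i) (f j)
  | f, .eq i j => .eq (f i) (f j)
  | f, .imp φ ψ => .imp (ren f φ) (ren f ψ)
  | f, .all φ => .all (ren (lift f) φ)

end Fml

lemma scons_lift {α : Type*} (x : α) (v : ℕ → α) (f : ℕ → ℕ) :
    (fun n => scons x v (Fml.lift f n)) = scons x (fun n => v (f n)) := by
  funext n
  cases n <;> rfl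

section
variable {M : Type} (E : M → M → Prop) (φ ψ : Fml) (v : ℕ → M)

@[simp] lemma sat_bot : Sat E .bot v ↔ False := Iff.rfl
@[simp] lemma sat_mem (i j : ℕ) : Sat E (.mem i j) v ↔ E (v i) (v j) := Iff.rfl
@[simp] lemma sat_eq (i j : ℕ) : Sat E (.eq i j) v ↔ v i = v j := Iff.rfl
@[simp] lemma sat_imp : Sat E (.imp φ ψ) v ↔ (Sat E φ v → Sat E ψ v) := Iff.rfl
@[simp] lemma sat_all : Sat E (.all φ) v ↔ ∀ x, Sat E φ (scons x v) := Iff.rfl
@[simp] lemma sat_neg : Sat E φ.neg v ↔ ¬ Sat E φ v := Iff.rfl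
@[simp] lemma sat_and : Sat E (φ.and ψ) v ↔ Sat E φ v ∧ Sat E ψ v := by
  simp only [Fml.and, sat_neg, sat_imp]; tauto
@[simp] lemma sat_or : Sat E (φ.or ψ) v ↔ Sat E φ v ∨ Sat E ψ v := by
  simp only [Fml.or, sat_neg, sat_imp]; tauto
@[simp] lemma sat_iff : Sat E (φ.iff ψ) v ↔ (Sat E φ v ↔ Sat E ψ v) := by
  simp only [Fml.iff, sat_and, sat_imp]; tauto
@[simp] lemma sat_ex : Sat E φ.ex v ↔ ∃ x, Sat E φ (scons x v) := by
  simp only [Fml.ex, sat_neg, sat_all]
  push Not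
  rfl

end

lemma sat_ren {M : Type} (E : M → M → Prop) (φ : Fml) (f : ℕ → ℕ) (v : ℕ → M) :
    Sat E (φ.ren f) v ↔ Sat E φ (fun n => v (f n)) := by
  induction φ generalizing f v with
  | bot => rfl
  | mem i j => rfl
  | eq i j => rfl
  | imp φ ψ ih1 ih2 => simp only [Fml.ren, sat_imp, ih1, ih2]
  | all φ ih =>
    simp only [Fml.ren, sat_all, ih, scons_lift]

@[simp] lemma scons_zero {α : Type*} (x : α) (v : ℕ → α) : scons x v 0 = x := rfl
@[simp] lemma scons_succ {α : Type*} (x : α) (v : ℕ → α) (n : ℕ) : scons x v (n + 1) = v n := rfl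
@[simp] lemma scons_one {α : Type*} (x : α) (v : ℕ → α) : scons x v 1 = v 0 := rfl
@[simp] lemma scons_two {α : Type*} (x : α) (v : ℕ → α) : scons x v 2 = v 1 := rfl
@[simp] lemma scons_three {α : Type*} (x : α) (v : ℕ → α) : scons x v 3 = v 2 := rfl
@[simp] lemma scons_four {α : Type*} (x : α) (v : ℕ → α) : scons x v 4 = v 3 := rfl
@[simp] lemma scons_five {α : Type*} (x : α) (v : ℕ → α) : scons x v 5 = v 4 := rfl

end Pool.Agent.Lib.SymZF
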