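import Mathlib
import Pool.Agent.Lib.SymZF.ZF

set_option autoImplicit false

namespace Pool.Agent.Lib.SymZF

section defs

variable {M : Type} (E : M → M → Prop)

/-- `z ⊆ y` -/
def Sub (z y : M) : Prop := ∀ t, E t z → E t y

/-- `p = {x, y}` -/
def IsUPair (x y p : M) : Prop := ∀ z, E z p ↔ z = x ∨ z = y

/-- `p` is the (Kuratowski) ordered pair `(x, y)` -/
def IsOPair (x y p : M) : Prop := ∃ a b, IsUPair E x x a ∧ IsUPair E x y b ∧ IsUPair E a b p

/-- `(x, y) ∈ f` -/
def Rel (f x y : M) : Prop := ∃ p, IsOPair E x y p ∧ E p f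

/-- `x = ∅` -/
def IsEmp (x : M) : Prop := ∀ z, ¬ E z x

/-- `s = x ∪ {x}` -/
def IsSucc (x s : M) : Prop := ∀ z, E z s ↔ E z x ∨ z = x

/-- `w` is an inductive set -/
def IsInductive (w : M) : Prop := (∃ e, IsEmp E e ∧ E e w) ∧ ∀ x, E x w → ∃ s, IsSucc E x s ∧ E s w

/-- `w = ω`, the least inductive set -/
def IsOmega (w : M) : Prop := IsInductive E w ∧ ∀ w', IsInductive E w' → Sub E w w'

/-- `f` is a function on (the class) `D` with values in (the class) `C` -/
def IsFunOn (D C : M → Prop) (f : M) : Prop :=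
  (∀ p, E p f → ∃ a b, D a ∧ C b ∧ IsOPair E a b p) ∧ ∀ a, D a → ∃! b, Rel E f a b

/-- `f` is a function from `x` to `y` -/
def IsFun (f x y : M) : Prop := IsFunOn E (fun a => E a x) (fun b => E b y) f

/-- `f` is an injection from `x` to `y` -/
def IsInj (f x y : M) : Prop := IsFun E f x y ∧ ∀ a a' b, Rel E f a b → Rel E f a' b → a = a'

/-- `f` is a bijection from `x` to `y` -/
def IsBij (f x y : M) : Prop := IsInj E f x y ∧ ∀ b, E b y → ∃ a, Rel E f a b

/-- `x` is finite: in bijection with a natural number -/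
def IsFin (x : M) : Prop := ∃ w n f, IsOmega E w ∧ E n w ∧ IsBij E f n x

/-- `z` has exactly `m` elements (`m` a natural number of the metatheory) -/
def HasCard (z : M) (m : ℕ) : Prop :=
  ∃ v : Fin m → M, Function.Injective v ∧ ∀ t, E t z ↔ ∃ i, t = v i

/-- `z` has more than `n` elements (`n` a natural number of the metatheory) -/
def MoreThan (n : ℕ) (z : M) : Prop :=
  ∃ v : Fin (n + 1) → M, Function.Injective v ∧ ∀ i, E (v i) z

/-- `z ∈ [y]^m` -/
def MSub (m : ℕ) (y z : M) : Prop := Sub E z y ∧ HasCard E z m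

/-- the principle `RC_m` holds in `(M, E)` -/
def RC (m : ℕ) : Prop := ∀ x, ¬ IsFin E x → ∃ y, Sub E y x ∧ ¬ IsFin E y ∧
  ∃ f, IsFunOn E (MSub E m y) (fun a => E a y) f ∧ ∀ z a, Rel E f z a → E a z

/-- the principle `n RC_fin` holds in `(M, E)` -/
def RCfin (n : ℕ) : Prop := ∀ x, ¬ IsFin E x → ∃ y, Sub E y x ∧ ¬ IsFin E y ∧
  ∃ f, IsFunOn E (fun z => Sub E z y ∧ IsFin E z ∧ MoreThan E n z) (MSub E n y) f ∧
    ∀ z w, Rel E f z w → Sub E w z

/-- `k` is the natural number `n` of the model -/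
def IsNum : ℕ → M → Prop
  | 0, k => IsEmp E k
  | n + 1, k => ∃ j, IsNum n j ∧ IsSucc E j k

/-- the natural numbers of the model are standard -/
def OmegaStd : Prop := ∀ w k, IsOmega E w → E k w → ∃ n : ℕ, IsNum E n k

end defs

end Pool.Agent.Lib.SymZF
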