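import Mathlib
import Pool.Agent.Lib.SymZF.FmlOps
import Pool.Agent.Lib.SymZF.IntDefs

set_option autoImplicit false

open Set

namespace Pool.Agent.Lib.SymZF

section basic

variable {M : Type} {E : M → M → Prop} (hZ : IsZF E)
include hZ

lemma eq_of_forall {x y : M} (h : ∀ z, E z x ↔ E z y) : x = y := hZ.ext x y h

lemma upair_ex (x y : M) : ∃ p, IsUPair E x y p := hZ.pair x y

lemma upair_unique {x y p q : M} (hp : IsUPair E x y p) (hq : IsUPair E x y q) : p = q :=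
  hZ.ext _ _ fun z => by rw [hp, hq]

lemma opair_ex (x y : M) : ∃ p, IsOPair E x y p := by
  obtain ⟨a, ha⟩ := upair_ex hZ x x
  obtain ⟨b, hb⟩ := upair_ex hZ x y
  obtain ⟨p, hp⟩ := upair_ex hZ a b
  exact ⟨p, a, b, ha, hb, hp⟩

lemma opair_unique {x y p q : M} (hp : IsOPair E x y p) (hq : IsOPair E x y q) : p = q := by
  obtain ⟨a, b, ha, hb, hp⟩ := hp
  obtain ⟨a', b', ha', hb', hq⟩ := hq
  obtain rfl := upair_unique hZ ha ha'
  obtain rfl := upair_unique hZ hb hb'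
  exact upair_unique hZ hp hq

omit hZ in
lemma opair_inj {x y x' y' p : M} (hp : IsOPair E x y p) (hq : IsOPair E x' y' p) :
    x = x' ∧ y = y' := by
  obtain ⟨a, b, ha, hb, hp⟩ := hp
  obtain ⟨a', b', ha', hb', hq⟩ := hq
  have hxa : E x a := (ha x).2 (Or.inl rfl)
  have hxb : E x b := (hb x).2 (Or.inl rfl)
  have hyb : E y b := (hb y).2 (Or.inr rfl)
  have hxa' : E x' a' := (ha' x').2 (Or.inl rfl)
  have hxb' : E x' b' := (hb' x').2 (Or.inl rfl)
  have hyb' : E y' b' := (hb' y').2 (Or.inr rfl)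
  -- a ∈ p, so a = a' or a = b'
  have h1 : a = a' ∨ a = b' := (hq a).1 ((hp a).2 (Or.inl rfl))
  have h2 : b = a' ∨ b = b' := (hq b).1 ((hp b).2 (Or.inr rfl))
  have h3 : a' = a ∨ a' = b := (hp a').1 ((hq a').2 (Or.inl rfl))
  have h4 : b' = a ∨ b' = b := (hp b').1 ((hq b').2 (Or.inr rfl))
  have hx : x = x' := by
    rcases h1 with h | h
    · rw [h] at hxa
      rcases (ha' x).1 hxa with h | h <;> exact h
    · rw [← h] at hxb'
      rcases (ha x').1 hxb' with h | h <;> exact h.symm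
  subst hx
  refine ⟨rfl, ?_⟩
  by_cases hy : y = x
  · subst hy
    -- b = a = {y}
    rcases h4 with h | h
    · rw [h] at hyb'
      rcases (ha y').1 hyb' with h | h <;> exact h.symm
    · rw [h] at hyb'
      rcases (hb y').1 hyb' with h | h <;> exact h.symm
  · rcases h2 with h | h
    · rw [h] at hyb
      rcases (ha' y).1 hyb with h | h <;> exact (hy h).elim
    · rw [h] at hyb
      rcases (hb' y).1 hyb with h | h
      · exact (hy h).elim
      · exact h

lemma emp_ex : ∃ e, IsEmp E e := by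
  obtain ⟨w, ⟨e, he, _⟩, _⟩ := hZ.infinity
  exact ⟨e, he⟩

lemma emp_unique {e e' : M} (h : IsEmp E e) (h' : IsEmp E e') : e = e' :=
  hZ.ext _ _ fun z => ⟨fun hz => (h z hz).elim, fun hz => (h' z hz).elim⟩

/-- adjoin an element -/
lemma adj_ex (x y : M) : ∃ s, ∀ z, E z s ↔ E z x ∨ z = y := by
  obtain ⟨a, ha⟩ := upair_ex hZ y y
  obtain ⟨p, hp⟩ := upair_ex hZ x a
  obtain ⟨u, hu⟩ := hZ.union p
  refine ⟨u, fun z => ?_⟩
  rw [hu]
  constructor
  · rintro ⟨t, ht, hzt⟩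
    rcases (hp t).1 ht with rfl | rfl
    · exact Or.inl hzt
    · rcases (ha z).1 hzt with h | h <;> exact Or.inr h
  · rintro (h | rfl)
    · exact ⟨x, (hp x).2 (Or.inl rfl), h⟩
    · exact ⟨a, (hp a).2 (Or.inr rfl), (ha z).2 (Or.inl rfl)⟩

lemma succ_ex (x : M) : ∃ s, IsSucc E x s := adj_ex hZ x x

lemma succ_unique {x s s' : M} (h : IsSucc E x s) (h' : IsSucc E x s') : s = s' :=
  hZ.ext _ _ fun z => by rw [h, h']

/-- every externally finite set is coded -/
lemma finite_ex {s : Set M} (hs : s.Finite) : ∃ y, ∀ z, E z y ↔ z ∈ s := by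
  induction s, hs using Set.Finite.induction_on with
  | empty =>
    obtain ⟨e, he⟩ := emp_ex hZ
    exact ⟨e, fun z => ⟨fun h => (he z h).elim, fun h => h.elim⟩⟩
  | @insert a s _ _ ih =>
    obtain ⟨y, hy⟩ := ih
    obtain ⟨u, hu⟩ := adj_ex hZ y a
    refine ⟨u, fun z => ?_⟩
    rw [hu, hy, Set.mem_insert_iff, or_comm]

lemma num_ex (n : ℕ) : ∃ k, IsNum E n k := by
  induction n with
  | zero => exact emp_ex hZ
  | succ n ih =>
    obtain ⟨k, hk⟩ := ih
    obtain ⟨s, hs⟩ := succ_ex hZ k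
    exact ⟨s, k, hk, hs⟩

lemma num_unique {n : ℕ} {k k' : M} (h : IsNum E n k) (h' : IsNum E n k') : k = k' := by
  induction n generalizing k k' with
  | zero => exact emp_unique hZ h h'
  | succ n ih =>
    obtain ⟨j, hj, hjk⟩ := h
    obtain ⟨j', hj', hjk'⟩ := h'
    obtain rfl := ih hj hj'
    exact succ_unique hZ hjk hjk'

lemma not_self_mem (x : M) : ¬ E x x := by
  intro h
  obtain ⟨s, hs⟩ := upair_ex hZ x x
  obtain ⟨y, hy, hy2⟩ := hZ.found s ⟨x, (hs x).2 (Or.inl rfl)⟩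
  have hyx : y = x := by rcases (hs y).1 hy with h | h <;> exact h
  subst hyx
  exact hy2 y h hy

lemma mem_num_iff {n : ℕ} {k : M} (h : IsNum E n k) (t : M) :
    E t k ↔ ∃ m < n, IsNum E m t := by
  induction n generalizing k with
  | zero =>
    constructor
    · intro ht; exact (h t ht).elim
    · rintro ⟨m, hm, _⟩; omega
  | succ n ih =>
    obtain ⟨j, hj, hjk⟩ := h
    rw [hjk, ih hj]
    constructor
    · rintro (⟨m, hm, h⟩ | rfl)
      · exact ⟨m, by omega, h⟩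
      · exact ⟨n, by omega, hj⟩
    · rintro ⟨m, hm, h⟩
      rcases Nat.lt_succ_iff_lt_or_eq.1 hm with h1 | rfl
      · exact Or.inl ⟨m, h1, h⟩
      · exact Or.inr (num_unique hZ h hj)

lemma num_ne {m n : ℕ} {j k : M} (hm : IsNum E m j) (hn : IsNum E n k) (h : m ≠ n) : j ≠ k := by
  rintro rfl
  rcases Nat.lt_or_gt_of_ne h with h | h
  · exact not_self_mem hZ j ((mem_num_iff hZ hn j).2 ⟨m, h, hm⟩)
  · exact not_self_mem hZ j ((mem_num_iff hZ hm j).2 ⟨n, h, hn⟩)

lemma num_inj {m n : ℕ} {j : M} (hm : IsNum E m j) (hn : IsNum E n j) : m = n := by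
  by_contra h
  exact num_ne hZ hm hn h rfl

lemma num_mem_num {m n : ℕ} {j k : M} (hm : IsNum E m j) (hn : IsNum E n k) :
    E j k ↔ m < n := by
  rw [mem_num_iff hZ hn]
  constructor
  · rintro ⟨l, hl, h⟩
    rw [num_inj hZ hm h]; exact hl
  · exact fun h => ⟨m, h, hm⟩

lemma omega_ex : ∃ w, IsOmega E w := by
  obtain ⟨w, ⟨e, he, hew⟩, hw⟩ := hZ.infinity
  -- the formula saying that x belongs to all inductive sets
  -- variables: 0 = x ; inside all: 0 = w', 1 = x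
  let emp : Fml := Fml.all (Fml.neg (.mem 0 1))
  let suc : Fml := Fml.all ((Fml.mem 0 1).iff ((Fml.mem 0 2).or (.eq 0 2)))
  let ind : Fml := (Fml.ex (emp.and (.mem 0 1))).and
    (Fml.all ((Fml.mem 0 1).imp (Fml.ex (suc.and (.mem 0 2)))))
  have hind : ∀ v : ℕ → M, Sat E ind v ↔ IsInductive E (v 0) := by
    intro v
    simp only [ind, emp, suc, sat_and, sat_ex, sat_all, sat_neg, sat_mem, sat_imp, sat_iff,
      sat_or, sat_eq, scons_zero, scons_one, scons_two]
    rfl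
  obtain ⟨o, ho⟩ := hZ.sep (Fml.all (ind.imp (.mem 1 0))) (fun _ => w) w
  have ho' : ∀ z, E z o ↔ E z w ∧ ∀ w', IsInductive E w' → E z w' := by
    intro z
    rw [ho]
    simp only [sat_all, sat_imp, hind, sat_mem, scons_zero, scons_one]
  have hw' : IsInductive E w := ⟨⟨e, he, hew⟩, hw⟩
  refine ⟨o, ⟨⟨e, he, (ho' e).2 ⟨hew, ?_⟩⟩, ?_⟩, ?_⟩
  · rintro w' ⟨⟨e', he', hew'⟩, _⟩
    rw [emp_unique hZ he he']; exact hew'
  · intro x hx
    obtain ⟨s, hs⟩ := succ_ex hZ x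
    refine ⟨s, hs, (ho' s).2 ?_⟩
    have h1 := (ho' x).1 hx
    have key : ∀ w', IsInductive E w' → E s w' := by
      intro w' hw'
      obtain ⟨s', hs', h⟩ := hw'.2 x (h1.2 w' hw')
      rw [succ_unique hZ hs hs']; exact h
    exact ⟨key w hw', key⟩
  · intro w' hw' z hz
    exact ((ho' z).1 hz).2 w' hw'

lemma omega_unique {w w' : M} (h : IsOmega E w) (h' : IsOmega E w') : w = w' :=
  hZ.ext _ _ fun z => ⟨h.2 w' h'.1 z, h'.2 w h.1 z⟩

lemma num_mem_omega {w k : M} (hw : IsOmega E w) {n : ℕ} (h : IsNum E n k) : E k w := by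
  induction n generalizing k with
  | zero =>
    obtain ⟨⟨⟨e, he, hew⟩, _⟩, _⟩ := hw
    rw [emp_unique hZ h he]; exact hew
  | succ n ih =>
    obtain ⟨j, hj, hjk⟩ := h
    obtain ⟨s, hs, hsw⟩ := hw.1.2 j (ih hj)
    rw [succ_unique hZ hjk hs]; exact hsw

omit hZ in
lemma rel_of_mem {f x y p : M} (hp : IsOPair E x y p) (h : E p f) : Rel E f x y := ⟨p, hp, h⟩

lemma mem_of_rel {f x y p : M} (hp : IsOPair E x y p) (h : Rel E f x y) : E p f := by
  obtain ⟨q, hq, h⟩ := h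
  rw [opair_unique hZ hp hq]; exact h

/-- an externally finite set is finite -/
lemma isFin_of_finite {x : M} (h : {z | E z x}.Finite) : IsFin E x := by
  obtain ⟨w, hw⟩ := omega_ex hZ
  have key : ∀ s : Set M, s.Finite → ∀ x, (∀ z, E z x ↔ z ∈ s) →
      ∃ (m : ℕ) (n f : M), IsNum E m n ∧ IsBij E f n x := by
    intro s hs
    induction s, hs using Set.Finite.induction_on with
    | empty =>
      intro x hx
      obtain ⟨e, he⟩ := emp_ex hZ
      refine ⟨0, e, e, he, ⟨⟨⟨?_, ?_⟩, ?_⟩, ?_⟩⟩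
      · intro p hp; exact (he p hp).elim
      · intro a ha; exact (he a ha).elim
      · rintro a a' b ⟨p, _, hp⟩; exact (he p hp).elim
      · intro b hb; exact ((hx b).1 hb).elim
    | @insert a s ha _ ih =>
      intro x hx
      -- x' = x without a
      obtain ⟨x', hx'⟩ := hZ.sep (Fml.neg (.eq 0 1)) (fun _ => a) x
      simp only [sat_neg, sat_eq, scons_zero, scons_one] at hx'
      have hx's : ∀ z, E z x' ↔ z ∈ s := by
        intro z
        rw [hx', hx, Set.mem_insert_iff]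
        constructor
        · rintro ⟨h | h, h2⟩
          · exact (h2 h).elim
          · exact h
        · intro h
          exact ⟨Or.inr h, fun h2 => ha (h2 ▸ h)⟩
      obtain ⟨m, n, f, hn, hf⟩ := ih x' hx's
      obtain ⟨n', hn'⟩ := succ_ex hZ n
      obtain ⟨q, hq⟩ := opair_ex hZ n a
      obtain ⟨g, hg⟩ := adj_ex hZ f q
      have hrel : ∀ c d, Rel E g c d ↔ Rel E f c d ∨ (c = n ∧ d = a) := by
        intro c d
        constructor
        · rintro ⟨p, hp, hpg⟩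
          rcases (hg p).1 hpg with h | rfl
          · exact Or.inl ⟨p, hp, h⟩
          · exact Or.inr (opair_inj hp hq)
        · rintro (⟨p, hp, h⟩ | ⟨rfl, rfl⟩)
          · exact ⟨p, hp, (hg p).2 (Or.inl h)⟩
          · exact ⟨q, hq, (hg q).2 (Or.inr rfl)⟩
      have hdom : ∀ c d, Rel E f c d → E c n ∧ E d x' := by
        rintro c d ⟨p, hp, hpf⟩
        obtain ⟨c', d', hc', hd', hp'⟩ := hf.1.1.1 p hpf
        obtain ⟨rfl, rfl⟩ := opair_inj hp hp'
        exact ⟨hc', hd'⟩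
      have hnn : ¬ E n n := not_self_mem hZ n
      have hax : E a x := (hx a).2 (Set.mem_insert _ _)
      have hax' : ¬ E a x' := fun h => ((hx' a).1 h).2 rfl
      refine ⟨m + 1, n', g, ⟨n, hn, hn'⟩, ⟨⟨⟨?_, ?_⟩, ?_⟩, ?_⟩⟩
      · intro p hp
        rcases (hg p).1 hp with h | rfl
        · obtain ⟨c, d, hc, hd, hp⟩ := hf.1.1.1 p h
          exact ⟨c, d, (hn' c).2 (Or.inl hc), ((hx' d).1 hd).1, hp⟩
        · exact ⟨n, a, (hn' n).2 (Or.inr rfl), hax, hq⟩
      · intro c hc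
        rcases (hn' c).1 hc with h | rfl
        · obtain ⟨d, hd, hd2⟩ := hf.1.1.2 c h
          refine ⟨d, (hrel c d).2 (Or.inl hd), fun d' hd' => ?_⟩
          rcases (hrel c d').1 hd' with h' | ⟨rfl, _⟩
          · exact hd2 d' h'
          · exact (hnn h).elim
        · refine ⟨a, (hrel c a).2 (Or.inr ⟨rfl, rfl⟩), fun d' hd' => ?_⟩
          rcases (hrel c d').1 hd' with h' | ⟨_, rfl⟩
          · exact (hnn (hdom _ _ h').1).elim
          · rfl
      · intro c c' d hc hc'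
        rcases (hrel c d).1 hc with h | ⟨rfl, rfl⟩ <;> rcases (hrel c' d).1 hc' with h' | ⟨h1, h2⟩
        · exact hf.1.2 c c' d h h'
        · exact (hax' (h2 ▸ (hdom _ _ h).2)).elim
        · exact (hax' (hdom _ _ h').2).elim
        · exact h1.symm
      · intro d hd
        by_cases hda : d = a
        · subst hda
          exact ⟨n, (hrel n d).2 (Or.inr ⟨rfl, rfl⟩)⟩
        · obtain ⟨c, hc⟩ := hf.2 d ((hx' d).2 ⟨hd, hda⟩)
          exact ⟨c, (hrel c d).2 (Or.inl hc)⟩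
  obtain ⟨m, n, f, hn, hf⟩ := key _ h x (fun z => Iff.rfl)
  exact ⟨w, n, f, hw, num_mem_omega hZ hw hn, hf⟩

/-- with standard `ω`, finite sets are externally finite -/
lemma finite_of_isFin (hω : OmegaStd E) {x : M} (h : IsFin E x) : {z | E z x}.Finite := by
  obtain ⟨w, n, f, hw, hn, hf⟩ := h
  obtain ⟨m, hm⟩ := hω w n hw hn
  have h1 : {z | E z n}.Finite := by
    have h2 : {z | E z n} ⊆ ⋃ l ∈ Finset.range m, {z | IsNum E l z} := by
      intro z hz
      obtain ⟨l, hl, hzl⟩ := (mem_num_iff hZ hm z).1 hz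
      exact Set.mem_biUnion (Finset.mem_coe.2 (Finset.mem_range.2 hl)) hzl
    refine Set.Finite.subset (Set.Finite.biUnion (Finset.finite_toSet _) fun l _ => ?_) h2
    exact Set.Subsingleton.finite fun a ha b hb => num_unique hZ ha hb
  have h3 : ∀ b, E b x → ∃ a, E a n ∧ Rel E f a b := by
    intro b hb
    obtain ⟨a, ha⟩ := hf.2 b hb
    refine ⟨a, ?_, ha⟩
    obtain ⟨p, hp, hpf⟩ := ha
    obtain ⟨c', d', hc', hd', hp'⟩ := hf.1.1.1 p hpf
    obtain ⟨rfl, rfl⟩ := opair_inj hp hp'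
    exact hc'
  choose! g hg1 hg2 using h3
  have h4 : Set.MapsTo g {z | E z x} {z | E z n} := fun b hb => hg1 b hb
  have h5 : Set.InjOn g {z | E z x} := by
    intro b hb b' hb' hbb
    have e1 := hg2 b hb
    have e2 := hg2 b' hb'
    rw [← hbb] at e2
    exact (hf.1.1.2 (g b) (hg1 b hb)).unique e1 e2
  exact Set.Finite.of_injOn h4 h5 h1

lemma isFin_iff (hω : OmegaStd E) (x : M) : IsFin E x ↔ {z | E z x}.Finite :=
  ⟨finite_of_isFin hZ hω, isFin_of_finite hZ⟩

end basic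

/-! ### Definability -/

/-- A predicate on assignments, uniformly in the structure, given by a first-order formula. -/
def Def (R : ∀ {M : Type}, (M → M → Prop) → (ℕ → M) → Prop) : Prop :=
  ∃ φ : Fml, ∀ (M : Type) (E : M → M → Prop) (v : ℕ → M), Sat E φ v ↔ R E v

namespace Def

lemma mem (i j : ℕ) : Def (fun E v => E (v i) (v j)) := ⟨.mem i j, fun _ _ _ => Iff.rfl⟩
lemma eq (i j : ℕ) : Def (fun _ v => v i = v j) := ⟨.eq i j, fun _ _ _ => Iff.rfl⟩

variable {R R' : ∀ {M : Type}, (M → M → Prop) → (ℕ → M) → Prop}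

lemma not (h : Def R) : Def (fun E v => ¬ R E v) := by
  obtain ⟨φ, hφ⟩ := h
  exact ⟨φ.neg, fun M E v => by rw [sat_neg, hφ]⟩
lemma and (h : Def R) (h' : Def R') : Def (fun E v => R E v ∧ R' E v) := by
  obtain ⟨φ, hφ⟩ := h
  obtain ⟨ψ, hψ⟩ := h'
  exact ⟨φ.and ψ, fun M E v => by rw [sat_and, hφ, hψ]⟩
lemma or (h : Def R) (h' : Def R') : Def (fun E v => R E v ∨ R' E v) := by
  obtain ⟨φ, hφ⟩ := h
  obtain ⟨ψ, hψ⟩ := h'
  exact ⟨φ.or ψ, fun M E v => by rw [sat_or, hφ, hψ]⟩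
lemma imp (h : Def R) (h' : Def R') : Def (fun E v => R E v → R' E v) := by
  obtain ⟨φ, hφ⟩ := h
  obtain ⟨ψ, hψ⟩ := h'
  exact ⟨φ.imp ψ, fun M E v => by rw [sat_imp, hφ, hψ]⟩
lemma iff (h : Def R) (h' : Def R') : Def (fun E v => R E v ↔ R' E v) := by
  obtain ⟨φ, hφ⟩ := h
  obtain ⟨ψ, hψ⟩ := h'
  exact ⟨φ.iff ψ, fun M E v => by rw [sat_iff, hφ, hψ]⟩
lemma all (h : Def R) : Def (fun E v => ∀ x, R E (scons x v)) := by
  obtain ⟨φ, hφ⟩ := h
  exact ⟨.all φ, fun M E v => by simp only [sat_all, hφ]⟩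
lemma ex (h : Def R) : Def (fun E v => ∃ x, R E (scons x v)) := by
  obtain ⟨φ, hφ⟩ := h
  exact ⟨φ.ex, fun M E v => by simp only [sat_ex, hφ]⟩
lemma ren (h : Def R) (f : ℕ → ℕ) : Def (fun E v => R E (fun n => v (f n))) := by
  obtain ⟨φ, hφ⟩ := h
  exact ⟨φ.ren f, fun M E v => by rw [sat_ren, hφ]⟩
lemma tru : Def (fun _ _ => True) := ⟨.imp .bot .bot, fun _ _ _ => by simp⟩

lemma congr (h : Def R) (h' : ∀ (M : Type) (E : M → M → Prop) (v : ℕ → M), R E v ↔ R' E v) :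
    Def R' := by
  obtain ⟨φ, hφ⟩ := h
  exact ⟨φ, fun M E v => (hφ M E v).trans (h' M E v)⟩

lemma iAnd {n : ℕ} {R : Fin n → ∀ {M : Type}, (M → M → Prop) → (ℕ → M) → Prop}
    (h : ∀ i, Def (R i)) : Def (fun E v => ∀ i, R i E v) := by
  induction n with
  | zero => exact congr tru fun M E v => by simp
  | succ n ih =>
    refine congr (and (h 0) (ih fun i => h i.succ)) fun M E v => ?_
    rw [Fin.forall_fin_succ]

lemma iOr {n : ℕ} {R : Fin n → ∀ {M : Type}, (M → M → Prop) → (ℕ → M) → Prop}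
    (h : ∀ i, Def (R i)) : Def (fun E v => ∃ i, R i E v) := by
  refine congr (not (iAnd fun i => not (h i))) fun M E v => ?_
  push Not
  rfl

lemma sub (i j : ℕ) : Def (fun E v => Sub E (v i) (v j)) :=
  all (R := fun E v => E (v 0) (v (i + 1)) → E (v 0) (v (j + 1))) (imp (mem _ _) (mem _ _))

lemma isUPair (i j k : ℕ) : Def (fun E v => IsUPair E (v i) (v j) (v k)) :=
  all (R := fun E v => E (v 0) (v (k + 1)) ↔ v 0 = v (i + 1) ∨ v 0 = v (j + 1))
    (iff (mem _ _) (or (eq _ _) (eq _ _)))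

lemma isOPair (i j k : ℕ) : Def (fun E v => IsOPair E (v i) (v j) (v k)) :=
  ex (R := fun E v => ∃ b, IsUPair E (v (i + 1)) (v (i + 1)) (v 0) ∧
      IsUPair E (v (i + 1)) (v (j + 1)) b ∧ IsUPair E (v 0) b (v (k + 1)))
    (ex (R := fun E v => IsUPair E (v (i + 2)) (v (i + 2)) (v 1) ∧
      IsUPair E (v (i + 2)) (v (j + 2)) (v 0) ∧ IsUPair E (v 1) (v 0) (v (k + 2)))
      (and (isUPair _ _ _) (and (isUPair _ _ _) (isUPair _ _ _))))

lemma rel (i j k : ℕ) : Def (fun E v => Rel E (v i) (v j) (v k)) :=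
  ex (R := fun E v => IsOPair E (v (j + 1)) (v (k + 1)) (v 0) ∧ E (v 0) (v (i + 1)))
    (and (isOPair _ _ _) (mem _ _))

lemma isEmp (i : ℕ) : Def (fun E v => IsEmp E (v i)) :=
  all (R := fun E v => ¬ E (v 0) (v (i + 1))) (not (mem _ _))

lemma isSucc (i j : ℕ) : Def (fun E v => IsSucc E (v i) (v j)) :=
  all (R := fun E v => E (v 0) (v (j + 1)) ↔ E (v 0) (v (i + 1)) ∨ v 0 = v (i + 1))
    (iff (mem _ _) (or (mem _ _) (eq _ _)))

lemma isInductive (i : ℕ) : Def (fun E v => IsInductive E (v i)) :=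
  and (ex (R := fun E v => IsEmp E (v 0) ∧ E (v 0) (v (i + 1))) (and (isEmp _) (mem _ _)))
    (all (R := fun E v => E (v 0) (v (i + 1)) → ∃ s, IsSucc E (v 0) s ∧ E s (v (i + 1)))
      (imp (mem _ _) (ex (R := fun E v => IsSucc E (v 1) (v 0) ∧ E (v 0) (v (i + 2)))
        (and (isSucc _ _) (mem _ _)))))

lemma isOmega (i : ℕ) : Def (fun E v => IsOmega E (v i)) :=
  and (isInductive _) (all (R := fun E v => IsInductive E (v 0) → Sub E (v (i + 1)) (v 0))
    (imp (isInductive _) (sub _ _)))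

lemma isNum (n i : ℕ) : Def (fun E v => IsNum E n (v i)) := by
  induction n generalizing i with
  | zero => exact isEmp i
  | succ n ih =>
    exact ex (R := fun E v => IsNum E n (v 0) ∧ IsSucc E (v 0) (v (i + 1)))
      (and (ih 0) (isSucc _ _))

end Def

section use

variable {M : Type} {E : M → M → Prop} (hZ : IsZF E)
include hZ

lemma sep_of_def {R : ∀ {M : Type}, (M → M → Prop) → (ℕ → M) → Prop} (h : Def R)
    (v : ℕ → M) (x : M) : ∃ y, ∀ z, E z y ↔ E z x ∧ R E (scons z v) := by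
  obtain ⟨φ, hφ⟩ := h
  obtain ⟨y, hy⟩ := hZ.sep φ v x
  exact ⟨y, fun z => by rw [hy, hφ]⟩

end use

end Pool.Agent.Lib.SymZF
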