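import Mathlib

set_option autoImplicit false

open Set

namespace Pool.Agent.Lib.SymZF

/-- Boolean-valued names. -/
inductive Name (B : Type) : Type 1
  | mk (ι : Type) (f : ι → Name B) (b : ι → B) : Name B

namespace Name

variable {B : Type} [CompleteBooleanAlgebra B]

/-- Boolean value of equality. -/
noncomputable def beq : Name B → Name B → B
  | mk ι f b, mk κ g c =>
    (⨅ i : ι, b i ⇨ ⨆ j : κ, c j ⊓ beq (f i) (g j)) ⊓
      (⨅ j : κ, c j ⇨ ⨆ i : ι, b i ⊓ beq (f i) (g j))

/-- Boolean value of membership. -/
noncomputable def bmem (x : Name B) : Name B → B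
  | mk κ g c => ⨆ j : κ, c j ⊓ beq x (g j)

lemma beq_mk {ι κ : Type} (f : ι → Name B) (b : ι → B) (g : κ → Name B) (c : κ → B) :
    beq (mk ι f b) (mk κ g c) = (⨅ i : ι, b i ⇨ ⨆ j : κ, c j ⊓ beq (f i) (g j)) ⊓
      (⨅ j : κ, c j ⇨ ⨆ i : ι, b i ⊓ beq (f i) (g j)) := by
  rw [beq]

lemma bmem_mk (x : Name B) {κ : Type} (g : κ → Name B) (c : κ → B) :
    bmem x (mk κ g c) = ⨆ j : κ, c j ⊓ beq x (g j) := rfl

@[simp] lemma beq_refl (x : Name B) : beq x x = ⊤ := by
  induction x with
  | mk ι f b ih =>
    rw [beq_mk, eq_top_iff]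
    refine le_inf (le_iInf fun i => ?_) (le_iInf fun i => ?_)
    · rw [le_himp_iff, top_inf_eq]
      exact le_iSup_of_le i (by rw [ih, inf_top_eq])
    · rw [le_himp_iff, top_inf_eq]
      exact le_iSup_of_le i (by rw [ih, inf_top_eq])

lemma beq_symm (x y : Name B) : beq x y = beq y x := by
  induction x generalizing y with
  | mk ι f b ih =>
    cases y with
    | mk κ g c =>
      rw [beq_mk, beq_mk, inf_comm]
      congr 1
      · refine iInf_congr fun j => ?_
        congr 1
        exact iSup_congr fun i => by rw [ih]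
      · refine iInf_congr fun j => ?_
        congr 1
        exact iSup_congr fun i => by rw [ih]

lemma beq_trans (x y z : Name B) : beq x y ⊓ beq y z ≤ beq x z := by
  induction x generalizing y z with
  | mk ι f b ih =>
    cases y with
    | mk κ g c =>
      cases z with
      | mk lam h d =>
        rw [beq_mk f b h d]
        refine le_inf (le_iInf fun i => ?_) (le_iInf fun k => ?_)
        · rw [le_himp_iff]
          calc beq (mk ι f b) (mk κ g c) ⊓ beq (mk κ g c) (mk lam h d) ⊓ b i
              ≤ (⨆ j : κ, c j ⊓ beq (f i) (g j)) ⊓ beq (mk κ g c) (mk lam h d) := by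
                refine le_inf ?_ (inf_le_left.trans inf_le_right)
                have h1 : beq (mk ι f b) (mk κ g c) ≤ b i ⇨ ⨆ j : κ, c j ⊓ beq (f i) (g j) := by
                  rw [beq_mk]; exact inf_le_left.trans (iInf_le _ i)
                exact (inf_le_inf_right _ (inf_le_left.trans h1)).trans himp_inf_le
            _ ≤ ⨆ k : lam, d k ⊓ beq (f i) (h k) := by
                rw [iSup_inf_eq]
                refine iSup_le fun j => ?_
                have h2 : beq (mk κ g c) (mk lam h d) ≤ c j ⇨ ⨆ k : lam, d k ⊓ beq (g j) (h k) := by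
                  rw [beq_mk]; exact inf_le_left.trans (iInf_le _ j)
                calc c j ⊓ beq (f i) (g j) ⊓ beq (mk κ g c) (mk lam h d)
                    ≤ beq (f i) (g j) ⊓ ⨆ k : lam, d k ⊓ beq (g j) (h k) := by
                      refine le_inf (inf_le_left.trans inf_le_right) ?_
                      calc c j ⊓ beq (f i) (g j) ⊓ beq (mk κ g c) (mk lam h d)
                          ≤ (c j ⇨ ⨆ k : lam, d k ⊓ beq (g j) (h k)) ⊓ c j :=
                            le_inf (inf_le_right.trans h2) (inf_le_left.trans inf_le_left)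
                        _ ≤ _ := himp_inf_le
                  _ ≤ _ := by
                      rw [inf_iSup_eq]
                      refine iSup_le fun k => le_iSup_of_le k ?_
                      calc beq (f i) (g j) ⊓ (d k ⊓ beq (g j) (h k))
                          ≤ d k ⊓ (beq (f i) (g j) ⊓ beq (g j) (h k)) := by
                            rw [inf_left_comm]
                        _ ≤ _ := inf_le_inf_left _ (ih i _ _)
        · rw [le_himp_iff]
          calc beq (mk ι f b) (mk κ g c) ⊓ beq (mk κ g c) (mk lam h d) ⊓ d k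
              ≤ beq (mk ι f b) (mk κ g c) ⊓ (⨆ j : κ, c j ⊓ beq (g j) (h k)) := by
                rw [inf_assoc]
                refine inf_le_inf_left _ ?_
                have h1 : beq (mk κ g c) (mk lam h d) ≤ d k ⇨ ⨆ j : κ, c j ⊓ beq (g j) (h k) := by
                  rw [beq_mk]; exact inf_le_right.trans (iInf_le _ k)
                exact (inf_le_inf_right _ h1).trans himp_inf_le
            _ ≤ ⨆ i : ι, b i ⊓ beq (f i) (h k) := by
                rw [inf_iSup_eq]
                refine iSup_le fun j => ?_
                have h2 : beq (mk ι f b) (mk κ g c) ≤ c j ⇨ ⨆ i : ι, b i ⊓ beq (f i) (g j) := by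
                  rw [beq_mk]; exact inf_le_right.trans (iInf_le _ j)
                calc beq (mk ι f b) (mk κ g c) ⊓ (c j ⊓ beq (g j) (h k))
                    ≤ (⨆ i : ι, b i ⊓ beq (f i) (g j)) ⊓ beq (g j) (h k) := by
                      refine le_inf ?_ (inf_le_right.trans inf_le_right)
                      calc beq (mk ι f b) (mk κ g c) ⊓ (c j ⊓ beq (g j) (h k))
                          ≤ (c j ⇨ ⨆ i : ι, b i ⊓ beq (f i) (g j)) ⊓ c j :=
                            le_inf (inf_le_left.trans h2) (inf_le_right.trans inf_le_left)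
                        _ ≤ _ := himp_inf_le
                  _ ≤ _ := by
                      rw [iSup_inf_eq]
                      refine iSup_le fun i => le_iSup_of_le i ?_
                      rw [inf_assoc]
                      exact inf_le_inf_left _ (ih i _ _)

lemma le_bmem_self {ι : Type} (f : ι → Name B) (b : ι → B) (i : ι) :
    b i ≤ bmem (f i) (mk ι f b) :=
  le_iSup_of_le (f := fun j => b j ⊓ beq (f i) (f j)) i (by simp)

lemma bmem_congr_left (x x' y : Name B) : beq x x' ⊓ bmem x y ≤ bmem x' y := by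
  cases y with
  | mk κ g c =>
    rw [bmem_mk, bmem_mk, inf_iSup_eq]
    refine iSup_le fun j => le_iSup_of_le j ?_
    refine le_inf (inf_le_right.trans inf_le_left) ?_
    calc beq x x' ⊓ (c j ⊓ beq x (g j)) ≤ beq x' x ⊓ beq x (g j) := by
          rw [beq_symm x x']; exact inf_le_inf_left _ inf_le_right
      _ ≤ _ := beq_trans _ _ _

lemma beq_inf_le_bmem {κ : Type} (g : κ → Name B) (c : κ → B) (y : Name B) (j : κ) :
    beq (mk κ g c) y ⊓ c j ≤ bmem (g j) y := by
  cases y with
  | mk lam h d =>
    have h2 : beq (mk κ g c) (mk lam h d) ≤ c j ⇨ ⨆ k : lam, d k ⊓ beq (g j) (h k) := by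
      rw [beq_mk]; exact inf_le_left.trans (iInf_le _ j)
    exact (inf_le_inf_right _ h2).trans himp_inf_le

lemma bmem_congr_right (x y y' : Name B) : beq y y' ⊓ bmem x y ≤ bmem x y' := by
  cases y with
  | mk κ g c =>
    rw [bmem_mk, inf_iSup_eq]
    refine iSup_le fun j => ?_
    calc beq (mk κ g c) y' ⊓ (c j ⊓ beq x (g j))
        ≤ beq (g j) x ⊓ bmem (g j) y' := by
          refine le_inf ?_ ?_
          · rw [beq_symm (g j) x]; exact inf_le_right.trans inf_le_right
          · rw [← inf_assoc]; exact inf_le_left.trans (beq_inf_le_bmem g c y' j)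
      _ ≤ _ := bmem_congr_left _ _ _

/-- Extensionality, in terms of the elements occurring in the names. -/
lemma le_beq_iff {ι κ : Type} (f : ι → Name B) (b : ι → B) (g : κ → Name B) (c : κ → B) (a : B) :
    a ≤ beq (mk ι f b) (mk κ g c) ↔
      (∀ i, a ⊓ b i ≤ bmem (f i) (mk κ g c)) ∧ (∀ j, a ⊓ c j ≤ bmem (g j) (mk ι f b)) := by
  rw [beq_mk, le_inf_iff, le_iInf_iff, le_iInf_iff]
  simp only [le_himp_iff]
  constructor
  · rintro ⟨h1, h2⟩
    refine ⟨h1, fun j => (h2 j).trans ?_⟩
    rw [bmem_mk]
    exact le_of_eq (iSup_congr fun i => by rw [beq_symm])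
  · rintro ⟨h1, h2⟩
    refine ⟨h1, fun j => (h2 j).trans ?_⟩
    rw [bmem_mk]
    exact le_of_eq (iSup_congr fun i => by rw [beq_symm])

end Name

end Pool.Agent.Lib.SymZF
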