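import Mathlib
import Pool.Agent.Lib.SymZF.Names
import Pool.Agent.Lib.SymZF.ZF

set_option autoImplicit false

open Set

namespace Pool.Agent.Lib.SymZF

/-- A symmetric system: a complete Boolean algebra with a group of automorphisms and a normal
filter on the group. -/
structure SymSys where
  /-- the algebra -/
  B : Type
  /-- its structure -/
  [cba : CompleteBooleanAlgebra B]
  /-- the group -/
  G : Type
  /-- its structure -/
  [grp : Group G]
  /-- the action -/
  α : G →* (B ≃o B)
  /-- the filter -/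
  F : Filter G
  /-- normality -/
  conj : ∀ g : G, Filter.Tendsto (fun h => g⁻¹ * h * g) F F

attribute [instance] SymSys.cba SymSys.grp

namespace SymSys

open Name

variable (S : SymSys)

/-- The action on names. -/
def act (g : S.G) : Name S.B → Name S.B
  | .mk ι f b => .mk ι (fun i => act g (f i)) (fun i => S.α g (b i))

lemma act_mk (g : S.G) {ι : Type} (f : ι → Name S.B) (b : ι → S.B) :
    S.act g (.mk ι f b) = .mk ι (fun i => S.act g (f i)) (fun i => S.α g (b i)) := rfl

@[simp] lemma act_one (x : Name S.B) : S.act 1 x = x := by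
  induction x with
  | mk ι f b ih =>
    rw [act_mk]
    congr 1
    · funext i; exact ih i
    · funext i; simp

lemma act_mul (g h : S.G) (x : Name S.B) : S.act (g * h) x = S.act g (S.act h x) := by
  induction x with
  | mk ι f b ih =>
    rw [act_mk, act_mk, act_mk]
    congr 1
    · funext i; exact ih i
    · funext i; simp

@[simp] lemma act_inv_act (g : S.G) (x : Name S.B) : S.act g⁻¹ (S.act g x) = x := by
  rw [← act_mul]; simp

@[simp] lemma act_act_inv (g : S.G) (x : Name S.B) : S.act g (S.act g⁻¹ x) = x := by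
  rw [← act_mul]; simp

@[simp] lemma α_inv_α (g : S.G) (b : S.B) : S.α g⁻¹ (S.α g b) = b := by
  have : (S.α g⁻¹ * S.α g) b = b := by rw [← map_mul]; simp
  exact this

@[simp] lemma α_α_inv (g : S.G) (b : S.B) : S.α g (S.α g⁻¹ b) = b := by
  have : (S.α g * S.α g⁻¹) b = b := by rw [← map_mul]; simp
  exact this

@[simp] lemma α_mul_apply (g h : S.G) (b : S.B) : S.α (g * h) b = S.α g (S.α h b) := by
  rw [map_mul]; rfl

lemma α_himp (g : S.G) (a b : S.B) : S.α g (a ⇨ b) = S.α g a ⇨ S.α g b := map_himp _ _ _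

lemma beq_act (g : S.G) (x y : Name S.B) : beq (S.act g x) (S.act g y) = S.α g (beq x y) := by
  induction x generalizing y with
  | mk ι f b ih =>
    cases y with
    | mk κ h c =>
      rw [act_mk, act_mk, beq_mk, beq_mk, map_inf, OrderIso.map_iInf, OrderIso.map_iInf]
      congr 1
      · refine iInf_congr fun i => ?_
        rw [α_himp, OrderIso.map_iSup]
        congr 1
        exact iSup_congr fun j => by rw [ih, map_inf]
      · refine iInf_congr fun i => ?_
        rw [α_himp, OrderIso.map_iSup]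
        congr 1
        exact iSup_congr fun j => by rw [ih, map_inf]

lemma bmem_act (g : S.G) (x y : Name S.B) : bmem (S.act g x) (S.act g y) = S.α g (bmem x y) := by
  cases y with
  | mk κ h c =>
    rw [act_mk, bmem_mk, bmem_mk, OrderIso.map_iSup]
    exact iSup_congr fun j => by rw [map_inf, beq_act]

/-- Hereditarily symmetric names. -/
def HS : Name S.B → Prop
  | .mk ι f b => {g | beq (S.act g (.mk ι f b)) (.mk ι f b) = ⊤} ∈ S.F ∧ ∀ i, HS (f i)

lemma HS_mk {ι : Type} (f : ι → Name S.B) (b : ι → S.B) :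
    S.HS (.mk ι f b) ↔ {g | beq (S.act g (.mk ι f b)) (.mk ι f b) = ⊤} ∈ S.F ∧ ∀ i, S.HS (f i) :=
  Iff.rfl

lemma HS.sym {S : SymSys} {x : Name S.B} (h : S.HS x) : {g | beq (S.act g x) x = ⊤} ∈ S.F := by
  cases x with
  | mk ι f b => exact h.1

lemma HS.act {S : SymSys} {x : Name S.B} (h : S.HS x) (g : S.G) : S.HS (S.act g x) := by
  induction x with
  | mk ι f b ih =>
    rw [act_mk, HS_mk]
    refine ⟨?_, fun i => ih i (h.2 i)⟩
    have h1 := S.conj g h.1
    rw [Filter.mem_map] at h1
    refine Filter.mem_of_superset h1 ?_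
    intro k hk
    simp only [mem_preimage, mem_ofPred_eq] at hk ⊢
    rw [act_mul, act_mul] at hk
    have h2 := congrArg (S.α g) hk
    rw [← beq_act, act_act_inv, map_top] at h2
    rw [← act_mk]
    exact h2

/-- The hereditarily symmetric names, as a type. -/
@[ext] structure HSet : Type 1 where
  /-- the underlying name -/
  val : Name S.B
  /-- it is hereditarily symmetric -/
  prop : S.HS val

variable {S}

/-- The action on hereditarily symmetric names. -/
def HSet.smul (g : S.G) (x : S.HSet) : S.HSet := ⟨S.act g x.1, x.2.act g⟩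

@[simp] lemma HSet.smul_val (g : S.G) (x : S.HSet) : (x.smul g).1 = S.act g x.1 := rfl

@[simp] lemma HSet.smul_inv_smul (g : S.G) (x : S.HSet) : (x.smul g).smul g⁻¹ = x := by
  apply HSet.ext; simp

@[simp] lemma HSet.smul_smul_inv (g : S.G) (x : S.HSet) : (x.smul g⁻¹).smul g = x := by
  apply HSet.ext; simp

/-- The action as an equivalence. -/
def HSet.smulEquiv (g : S.G) : S.HSet ≃ S.HSet where
  toFun := HSet.smul g
  invFun := HSet.smul g⁻¹
  left_inv x := by simp
  right_inv x := by simp

/-- Elements of hereditarily symmetric names. -/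
def HSet.elem {ι : Type} {f : ι → Name S.B} {b : ι → S.B} (h : S.HS (.mk ι f b)) (i : ι) :
    S.HSet := ⟨f i, h.2 i⟩

/-- Boolean value of a formula in the hereditarily symmetric names. -/
noncomputable def bval : Fml → (ℕ → S.HSet) → S.B
  | .bot, _ => ⊥
  | .mem i j, v => bmem (v i).1 (v j).1
  | .eq i j, v => beq (v i).1 (v j).1
  | .imp φ ψ, v => bval φ v ⇨ bval ψ v
  | .all φ, v => ⨅ x : S.HSet, bval φ (scons x v)

lemma scons_comp {α β : Type*} (x : α) (v : ℕ → α) (f : α → β) :
    (fun i => f (scons x v i)) = scons (f x) (fun i => f (v i)) := by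
  funext i
  cases i <;> rfl

lemma bval_act (g : S.G) (φ : Fml) (v : ℕ → S.HSet) :
    bval φ (fun i => (v i).smul g) = S.α g (bval φ v) := by
  induction φ generalizing v with
  | bot => simp [bval]
  | mem i j => simp [bval, bmem_act]
  | eq i j => simp [bval, beq_act]
  | imp φ ψ ih1 ih2 => simp only [bval, α_himp, ih1, ih2]
  | all φ ih =>
    simp only [bval]
    rw [OrderIso.map_iInf]
    rw [← (HSet.smulEquiv g).iInf_comp]
    refine iInf_congr fun x => ?_
    rw [← ih, scons_comp]
    rfl

/-- Infimum of the values of equality of two assignments. -/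
noncomputable def beqs (v w : ℕ → S.HSet) : S.B := ⨅ i, beq (v i).1 (w i).1

lemma beqs_le (v w : ℕ → S.HSet) (i : ℕ) : beqs v w ≤ beq (v i).1 (w i).1 :=
  iInf_le (fun i => beq (v i).1 (w i).1) i

lemma beqs_symm (v w : ℕ → S.HSet) : beqs v w = beqs w v := by
  unfold beqs
  refine iInf_congr fun i => ?_
  exact beq_symm _ _

lemma beqs_scons (x : S.HSet) (v w : ℕ → S.HSet) : beqs v w ≤ beqs (scons x v) (scons x w) := by
  refine le_iInf fun i => ?_
  cases i with
  | zero => simp [scons]
  | succ n => exact iInf_le _ n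

lemma beqs_scons_left (x y : S.HSet) (v : ℕ → S.HSet) :
    beqs (scons x v) (scons y v) = beq x.1 y.1 := by
  apply le_antisymm
  · exact beqs_le _ _ 0
  · refine le_iInf fun i => ?_
    cases i with
    | zero => simp [scons]
    | succ n => simp [scons]

lemma bval_congr (φ : Fml) (v w : ℕ → S.HSet) : beqs v w ⊓ bval φ v ≤ bval φ w := by
  induction φ generalizing v w with
  | bot => simp [bval]
  | mem i j =>
    simp only [bval]
    calc beqs v w ⊓ bmem (v i).1 (v j).1
        ≤ beq (v j).1 (w j).1 ⊓ (beq (v i).1 (w i).1 ⊓ bmem (v i).1 (v j).1) := by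
          refine le_inf (inf_le_left.trans (iInf_le _ j)) (inf_le_inf_right _ (iInf_le _ i))
      _ ≤ beq (v j).1 (w j).1 ⊓ bmem (w i).1 (v j).1 := inf_le_inf_left _ (bmem_congr_left _ _ _)
      _ ≤ _ := bmem_congr_right _ _ _
  | eq i j =>
    simp only [bval]
    calc beqs v w ⊓ beq (v i).1 (v j).1
        ≤ (beq (w i).1 (v i).1 ⊓ beq (v i).1 (v j).1) ⊓ beq (v j).1 (w j).1 := by
          refine le_inf (inf_le_inf_right _ ?_) (inf_le_left.trans (iInf_le _ j))
          rw [beq_symm]; exact iInf_le _ i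
      _ ≤ beq (w i).1 (v j).1 ⊓ beq (v j).1 (w j).1 := inf_le_inf_right _ (beq_trans _ _ _)
      _ ≤ _ := beq_trans _ _ _
  | imp φ ψ ih1 ih2 =>
    simp only [bval]
    rw [le_himp_iff]
    calc beqs v w ⊓ (bval φ v ⇨ bval ψ v) ⊓ bval φ w
        ≤ beqs v w ⊓ ((bval φ v ⇨ bval ψ v) ⊓ bval φ v) := by
          refine le_inf (inf_le_left.trans inf_le_left) (le_inf (inf_le_left.trans inf_le_right) ?_)
          calc beqs v w ⊓ (bval φ v ⇨ bval ψ v) ⊓ bval φ w ≤ beqs w v ⊓ bval φ w := by
                rw [beqs_symm]; exact inf_le_inf_right _ inf_le_left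
            _ ≤ _ := ih1 _ _
      _ ≤ beqs v w ⊓ bval ψ v := inf_le_inf_left _ himp_inf_le
      _ ≤ _ := ih2 _ _
  | all φ ih =>
    simp only [bval]
    refine le_iInf fun x => ?_
    calc beqs v w ⊓ (⨅ y, bval φ (scons y v))
        ≤ beqs (scons x v) (scons x w) ⊓ bval φ (scons x v) :=
          inf_le_inf (beqs_scons _ _ _) (iInf_le _ x)
      _ ≤ _ := ih _ _

lemma bval_congr_scons (φ : Fml) (x y : S.HSet) (v : ℕ → S.HSet) :
    beq x.1 y.1 ⊓ bval φ (scons x v) ≤ bval φ (scons y v) := by
  rw [← beqs_scons_left x y v]; exact bval_congr _ _ _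

/-- A bound for the free variables of a formula. -/
def _root_.Pool.Agent.Lib.SymZF.Fml.bd : Fml → ℕ
  | .bot => 0
  | .mem i j => max (i + 1) (j + 1)
  | .eq i j => max (i + 1) (j + 1)
  | .imp φ ψ => max φ.bd ψ.bd
  | .all φ => φ.bd - 1

lemma bval_bd (φ : Fml) (v w : ℕ → S.HSet) (h : ∀ i < φ.bd, v i = w i) :
    bval φ v = bval φ w := by
  induction φ generalizing v w with
  | bot => rfl
  | mem i j =>
    simp only [Fml.bd, lt_max_iff] at h
    simp only [bval, h i (Or.inl (Nat.lt_succ_self i)), h j (Or.inr (Nat.lt_succ_self j))]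
  | eq i j =>
    simp only [Fml.bd, lt_max_iff] at h
    simp only [bval, h i (Or.inl (Nat.lt_succ_self i)), h j (Or.inr (Nat.lt_succ_self j))]
  | imp φ ψ ih1 ih2 =>
    simp only [Fml.bd, lt_max_iff] at h
    simp only [bval, ih1 v w (fun i hi => h i (Or.inl hi)), ih2 v w (fun i hi => h i (Or.inr hi))]
  | all φ ih =>
    simp only [Fml.bd] at h
    simp only [bval]
    refine iInf_congr fun x => ih _ _ fun i hi => ?_
    cases i with
    | zero => rfl
    | succ n => exact h n (by omega)

/-- Truncate an assignment. -/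
def trunc (d : S.HSet) (n : ℕ) (v : ℕ → S.HSet) : ℕ → S.HSet := fun i => if i < n then v i else d

lemma bval_congr_bd (φ : Fml) (v w : ℕ → S.HSet) (a : S.B)
    (h : ∀ i < φ.bd, a ≤ beq (v i).1 (w i).1) : a ⊓ bval φ v ≤ bval φ w := by
  have h1 : bval φ v = bval φ (trunc (v 0) φ.bd v) :=
    bval_bd _ _ _ fun i hi => by simp [trunc, hi]
  have h2 : bval φ w = bval φ (trunc (v 0) φ.bd w) :=
    bval_bd _ _ _ fun i hi => by simp [trunc, hi]
  rw [h1, h2]
  refine le_trans (inf_le_inf_right _ (le_iInf fun i => ?_)) (bval_congr _ _ _)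
  by_cases hi : i < φ.bd
  · simp only [trunc, hi, if_true]; exact h i hi
  · simp [trunc, hi]

end SymSys

end Pool.Agent.Lib.SymZF
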