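import Mathlib
import Pool.Agent.Lib.SymZF.Sym
import Pool.Agent.Lib.SymZF.FmlOps

set_option autoImplicit false

open Set

namespace Pool.Agent.Lib.SymZF

open Name

namespace Name

variable {B : Type}

/-- The index type of a name. -/
def idx : Name B → Type
  | mk ι _ _ => ι

/-- The elements of a name. -/
def el : (x : Name B) → x.idx → Name B
  | mk _ f _ => f

/-- The values of a name. -/
def vl : (x : Name B) → x.idx → B
  | mk _ _ b => b

lemma mk_eta (x : Name B) : mk x.idx x.el x.vl = x := by cases x; rfl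

end Name

namespace SymSys

variable {S : SymSys}

/-- The index type of a hereditarily symmetric name. -/
def HSet.idx (x : S.HSet) : Type := x.1.idx

/-- The elements. -/
def HSet.el (x : S.HSet) (i : x.idx) : S.HSet := ⟨x.1.el i, by
  obtain ⟨x, hx⟩ := x
  cases x with
  | mk ι f b => exact hx.2 i⟩

/-- The values. -/
def HSet.vl (x : S.HSet) (i : x.idx) : S.B := x.1.vl i

/-- Membership value. -/
noncomputable def HSet.mem (x y : S.HSet) : S.B := bmem x.1 y.1

/-- Equality value. -/
noncomputable def HSet.eq (x y : S.HSet) : S.B := beq x.1 y.1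

namespace HSet

lemma mem_eq (w x : S.HSet) : w.mem x = ⨆ i : x.idx, x.vl i ⊓ w.eq (x.el i) := by
  obtain ⟨x, hx⟩ := x
  cases x with
  | mk ι f b => rfl

@[simp] lemma eq_refl (x : S.HSet) : x.eq x = ⊤ := beq_refl _
lemma eq_symm (x y : S.HSet) : x.eq y = y.eq x := beq_symm _ _
lemma eq_trans (x y z : S.HSet) : x.eq y ⊓ y.eq z ≤ x.eq z := beq_trans _ _ _
lemma mem_congr_left (x x' y : S.HSet) : x.eq x' ⊓ x.mem y ≤ x'.mem y := bmem_congr_left _ _ _
lemma mem_congr_right (x y y' : S.HSet) : y.eq y' ⊓ x.mem y ≤ x.mem y' := bmem_congr_right _ _ _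

lemma vl_le_mem (x : S.HSet) (i : x.idx) : x.vl i ≤ (x.el i).mem x := by
  rw [mem_eq]
  refine le_trans ?_ (le_iSup _ i)
  simp

lemma smul_mem (g : S.G) (x y : S.HSet) : (x.smul g).mem (y.smul g) = S.α g (x.mem y) :=
  S.bmem_act _ _ _
lemma smul_eq (g : S.G) (x y : S.HSet) : (x.smul g).eq (y.smul g) = S.α g (x.eq y) :=
  S.beq_act _ _ _

lemma mem_of_eq_top_left {x x' : S.HSet} (h : x.eq x' = ⊤) (y : S.HSet) : x.mem y = x'.mem y := by
  apply le_antisymm
  · have := mem_congr_left x x' y
    rwa [h, top_inf_eq] at this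
  · have := mem_congr_left x' x y
    rwa [eq_symm, h, top_inf_eq] at this

lemma mem_of_eq_top_right {y y' : S.HSet} (h : y.eq y' = ⊤) (x : S.HSet) : x.mem y = x.mem y' := by
  apply le_antisymm
  · have := mem_congr_right x y y'
    rwa [h, top_inf_eq] at this
  · have := mem_congr_right x y' y
    rwa [eq_symm, h, top_inf_eq] at this

lemma eq_of_eq_top_left {x x' : S.HSet} (h : x.eq x' = ⊤) (y : S.HSet) : x.eq y = x'.eq y := by
  apply le_antisymm
  · have := eq_trans x' x y
    rwa [eq_symm x' x, h, top_inf_eq] at this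
  · have := eq_trans x x' y
    rwa [h, top_inf_eq] at this

lemma sym (x : S.HSet) : ∀ᶠ g in S.F, (x.smul g).eq x = ⊤ := x.2.sym

/-- Extensionality. -/
lemma le_eq {x y : S.HSet} {a : S.B} (h : ∀ z : S.HSet, a ⊓ z.mem x ≤ z.mem y)
    (h' : ∀ z : S.HSet, a ⊓ z.mem y ≤ z.mem x) : a ≤ x.eq y := by
  obtain ⟨x, hx⟩ := x
  obtain ⟨y, hy⟩ := y
  cases x with
  | mk ι f b =>
    cases y with
    | mk κ g c =>
      refine (le_beq_iff f b g c a).2 ⟨fun i => ?_, fun j => ?_⟩
      · exact (inf_le_inf_left _ (le_bmem_self f b i)).trans (h ⟨f i, hx.2 i⟩)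
      · exact (inf_le_inf_left _ (le_bmem_self g c j)).trans (h' ⟨g j, hy.2 j⟩)

end HSet

/-- Symmetric classes. -/
structure Cls (S : SymSys) where
  /-- the Boolean value -/
  P : S.HSet → S.B
  ext : ∀ u v : S.HSet, u.eq v ⊓ P u ≤ P v
  sym : ∀ᶠ g in S.F, ∀ w : S.HSet, P (w.smul g) = S.α g (P w)

/-- The underlying name of the set given by a bounded class. -/
def Cls.name (C : Cls S) {I : Type} (f : I → S.HSet) : Name S.B :=
  .mk I (fun i => (f i).1) (fun i => C.P (f i))

lemma Cls.bmem_name (C : Cls S) {I : Type} (f : I → S.HSet)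
    (h : ∀ w, C.P w ≤ ⨆ i, C.P (f i) ⊓ w.eq (f i)) (w : S.HSet) :
    bmem w.1 (C.name f) = C.P w := by
  apply le_antisymm
  · refine iSup_le fun i => ?_
    have := C.ext (f i) w
    rw [HSet.eq_symm] at this
    refine le_trans ?_ this
    rw [inf_comm]
    exact le_rfl
  · exact h w

/-- A set name is hereditarily symmetric if its membership function is equivariant. -/
lemma HS_of_equivariant {I : Type} (f : I → S.HSet) (b : I → S.B)
    (h : ∀ᶠ g in S.F, ∀ w : S.HSet, bmem (w.smul g).1 (.mk I (fun i => (f i).1) b) =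
      S.α g (bmem w.1 (.mk I (fun i => (f i).1) b))) :
    S.HS (.mk I (fun i => (f i).1) b) := by
  refine ⟨?_, fun i => (f i).2⟩
  refine Filter.mem_of_superset h ?_
  intro g hg
  simp only [mem_ofPred_eq] at hg ⊢
  rw [eq_top_iff, act_mk]
  refine (le_beq_iff _ _ _ _ _).2 ⟨fun i => ?_, fun i => ?_⟩
  · rw [top_inf_eq]
    have h1 := hg (f i)
    rw [HSet.smul_val] at h1
    rw [h1]
    exact (S.α g).monotone (le_bmem_self (fun i => (f i).1) b i)
  · rw [top_inf_eq, ← act_mk]
    have h1 := hg ((f i).smul g⁻¹)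
    rw [HSet.smul_smul_inv] at h1
    have h2 := S.bmem_act g ((f i).smul g⁻¹).1 (.mk I (fun i => (f i).1) b)
    rw [HSet.smul_val, act_act_inv] at h2
    rw [h2]
    rw [HSet.smul_val] at h1
    rw [← h1]
    exact le_bmem_self (fun i => (f i).1) b i

/-- The set given by a bounded class. -/
def Cls.set (C : Cls S) {I : Type} (f : I → S.HSet)
    (h : ∀ w, C.P w ≤ ⨆ i, C.P (f i) ⊓ w.eq (f i)) : S.HSet :=
  ⟨C.name f, HS_of_equivariant f _ (by
    refine C.sym.mono fun g hg w => ?_
    have h1 := C.bmem_name f h (w.smul g)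
    have h2 := C.bmem_name f h w
    rw [Cls.name] at h1 h2
    rw [h1, h2, hg])⟩

lemma Cls.mem_set (C : Cls S) {I : Type} (f : I → S.HSet)
    (h : ∀ w, C.P w ≤ ⨆ i, C.P (f i) ⊓ w.eq (f i)) (w : S.HSet) :
    w.mem (C.set f h) = C.P w := C.bmem_name f h w

section bval
variable (φ ψ : Fml) (v : ℕ → S.HSet)

@[simp] lemma bval_bot : bval .bot v = ⊥ := rfl
@[simp] lemma bval_mem (i j : ℕ) : bval (.mem i j) v = (v i).mem (v j) := rfl
@[simp] lemma bval_eq (i j : ℕ) : bval (.eq i j) v = (v i).eq (v j) := rfl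
@[simp] lemma bval_imp : bval (.imp φ ψ) v = bval φ v ⇨ bval ψ v := rfl
@[simp] lemma bval_all : bval (.all φ) v = ⨅ x, bval φ (scons x v) := rfl
@[simp] lemma bval_neg : bval φ.neg v = (bval φ v)ᶜ := by simp [Fml.neg]
@[simp] lemma bval_and : bval (φ.and ψ) v = bval φ v ⊓ bval ψ v := by
  simp [Fml.and, himp_eq, compl_sup, inf_comm]
@[simp] lemma bval_or : bval (φ.or ψ) v = bval φ v ⊔ bval ψ v := by
  simp [Fml.or, himp_eq, sup_comm]
@[simp] lemma bval_iff : bval (φ.iff ψ) v = (bval φ v ⇨ bval ψ v) ⊓ (bval ψ v ⇨ bval φ v) := by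
  simp [Fml.iff]
@[simp] lemma bval_ex : bval φ.ex v = ⨆ x, bval φ (scons x v) := by
  simp [Fml.ex, compl_iInf]

end bval

lemma bval_ren (φ : Fml) (f : ℕ → ℕ) (v : ℕ → S.HSet) :
    bval (φ.ren f) v = bval φ (fun n => v (f n)) := by
  induction φ generalizing f v with
  | bot => rfl
  | mem i j => rfl
  | eq i j => rfl
  | imp φ ψ ih1 ih2 => simp only [Fml.ren, bval_imp, ih1, ih2]
  | all φ ih => simp only [Fml.ren, bval_all, ih, scons_lift]

/-- The stabilizing set of finitely many parameters. -/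
lemma eventually_fix (v : ℕ → S.HSet) (n : ℕ) :
    ∀ᶠ g in S.F, ∀ i < n, ((v i).smul g).eq (v i) = ⊤ := by
  induction n with
  | zero => simp
  | succ n ih =>
    filter_upwards [ih, (v n).sym] with g h1 h2 i hi
    rcases Nat.lt_succ_iff_lt_or_eq.1 hi with h | h
    · exact h1 i h
    · rw [h]; exact h2

lemma bval_smul_of_fix (φ : Fml) (v : ℕ → S.HSet) (w : S.HSet) (g : S.G)
    (h : ∀ i < φ.bd, ((v i).smul g).eq (v i) = ⊤) :
    bval φ (scons (w.smul g) v) = S.α g (bval φ (scons w v)) := by
  rw [← bval_act, scons_comp]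
  have h0 : ∀ i < φ.bd, (scons (w.smul g) v i).eq (scons (w.smul g) (fun i => (v i).smul g) i)
      = ⊤ := by
    intro i hi
    cases i with
    | zero => exact beq_refl _
    | succ n => rw [HSet.eq_symm]; exact h n (by omega)
  apply le_antisymm
  · have h1 := bval_congr_bd φ (scons (w.smul g) v) (scons (w.smul g) (fun i => (v i).smul g)) ⊤
      (fun i hi => by rw [← h0 i hi]; exact le_rfl)
    rwa [top_inf_eq] at h1
  · have h1 := bval_congr_bd φ (scons (w.smul g) (fun i => (v i).smul g)) (scons (w.smul g) v) ⊤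
      (fun i hi => by rw [← h0 i hi, HSet.eq_symm]; exact le_rfl)
    rwa [top_inf_eq] at h1

/-- The class defined by a formula. -/
noncomputable def Cls.ofFml (φ : Fml) (v : ℕ → S.HSet) : Cls S where
  P w := bval φ (scons w v)
  ext u w := bval_congr_scons φ u w v
  sym := (eventually_fix v φ.bd).mono fun g hg w => bval_smul_of_fix φ v w g hg

/-- Bounded comprehension for formulas. -/
theorem exists_set_of_fml (φ : Fml) (v : ℕ → S.HSet) {I : Type} (f : I → S.HSet)
    (h : ∀ w, bval φ (scons w v) ≤ ⨆ i, bval φ (scons (f i) v) ⊓ w.eq (f i)) :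
    ∃ y : S.HSet, ∀ w : S.HSet, w.mem y = bval φ (scons w v) :=
  ⟨(Cls.ofFml φ v).set f h, (Cls.ofFml φ v).mem_set f h⟩

lemma fml_ext (φ : Fml) (v : ℕ → S.HSet) (u w : S.HSet) :
    u.eq w ⊓ bval φ (scons u v) ≤ bval φ (scons w v) := bval_congr_scons φ u w v

/-- Pairing. -/
theorem hs_pair (x y : S.HSet) : ∃ p : S.HSet, ∀ w : S.HSet, w.mem p = w.eq x ⊔ w.eq y := by
  obtain ⟨p, hp⟩ := exists_set_of_fml (S := S) ((Fml.eq 0 1).or (Fml.eq 0 2))
    (scons x (fun _ => y)) (fun b : Bool => if b then x else y) (by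
      intro w
      simp only [bval_or, bval_eq, scons_zero, scons_one, scons_two]
      refine sup_le ?_ ?_
      · exact le_iSup_of_le true (by simp)
      · exact le_iSup_of_le false (by simp))
  exact ⟨p, fun w => by rw [hp]; simp⟩

/-- Union. -/
theorem hs_union (x : S.HSet) : ∃ p : S.HSet, ∀ w : S.HSet, w.mem p = ⨆ z : S.HSet, z.mem x ⊓ w.mem z := by
  obtain ⟨p, hp⟩ := exists_set_of_fml (S := S) (Fml.ex ((Fml.mem 0 2).and (Fml.mem 1 0)))
    (fun _ => x) (I := Σ i : x.idx, (x.el i).idx) (fun s => (x.el s.1).el s.2) (by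
      intro w
      simp only [bval_ex, bval_and, bval_mem, scons_zero, scons_one, scons_two]
      refine iSup_le fun z => ?_
      rw [HSet.mem_eq z x, iSup_inf_eq]
      refine iSup_le fun i => ?_
      calc x.vl i ⊓ z.eq (x.el i) ⊓ w.mem z ≤ x.vl i ⊓ w.mem (x.el i) := by
            rw [inf_assoc]; exact inf_le_inf_left _ (HSet.mem_congr_right _ _ _)
        _ ≤ _ := by
            rw [HSet.mem_eq w (x.el i), inf_iSup_eq]
            refine iSup_le fun j => ?_
            refine le_iSup_of_le (⟨i, j⟩ : Σ i : x.idx, (x.el i).idx) ?_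
            refine le_inf (le_iSup_of_le (x.el i) ?_) (inf_le_right.trans inf_le_right)
            exact le_inf (inf_le_left.trans (x.vl_le_mem i))
              (inf_le_right.trans (inf_le_left.trans ((x.el i).vl_le_mem j))))
  exact ⟨p, fun w => by rw [hp]; simp⟩

/-- Separation. -/
theorem hs_sep (x : S.HSet) (φ : Fml) (v : ℕ → S.HSet) :
    ∃ p : S.HSet, ∀ w : S.HSet, w.mem p = w.mem x ⊓ bval φ (scons w v) := by
  obtain ⟨p, hp⟩ := exists_set_of_fml (S := S)
    ((Fml.mem 0 1).and (φ.ren (fun n => Nat.casesOn n 0 (fun m => m + 2))))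
    (scons x v) (I := x.idx) x.el (by
      intro w
      refine le_trans (b := w.mem x ⊓ bval ((Fml.mem 0 1).and
        (φ.ren (fun n => Nat.casesOn n 0 (fun m => m + 2)))) (scons w (scons x v))) ?_ ?_
      · refine le_inf ?_ le_rfl
        simp only [bval_and, bval_mem, scons_zero, scons_one]
        exact inf_le_left
      · rw [HSet.mem_eq, iSup_inf_eq]
        refine iSup_le fun i => le_iSup_of_le i ?_
        refine le_inf ?_ (inf_le_left.trans inf_le_right)
        refine le_trans ?_ (fml_ext _ _ w (x.el i))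
        exact inf_le_inf_right _ inf_le_right)
  refine ⟨p, fun w => ?_⟩
  rw [hp]
  simp only [bval_and, bval_mem, scons_zero, scons_one, bval_ren]
  congr 2
  funext n
  cases n <;> rfl

/-- The intersection with an arbitrary set. -/
theorem hs_power (x : S.HSet) :
    ∃ p : S.HSet, ∀ w : S.HSet, w.mem p = ⨅ z : S.HSet, z.mem w ⇨ z.mem x := by
  classical
  obtain ⟨p, hp⟩ := exists_set_of_fml (S := S) (Fml.all ((Fml.mem 0 1).imp (Fml.mem 0 2)))
    (fun _ => x) (I := {χ : x.idx → S.B // S.HS (.mk x.idx (fun i => (x.el i).1) χ)})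
    (fun χ => ⟨_, χ.2⟩) (by
      intro w
      simp only [bval_all, bval_imp, bval_mem, scons_zero, scons_one, scons_two]
      -- the name for the intersection of w and x
      have hsym : ∀ᶠ g in S.F, ∀ z : S.HSet, (z.smul g).mem x ⊓ (z.smul g).mem w =
          S.α g (z.mem x ⊓ z.mem w) := by
        filter_upwards [x.sym, w.sym] with g h1 h2 z
        rw [map_inf, ← HSet.smul_mem, ← HSet.smul_mem, HSet.mem_of_eq_top_right h1,
          HSet.mem_of_eq_top_right h2]
      have hval : ∀ z : S.HSet, bmem z.1 (.mk x.idx (fun i => (x.el i).1)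
          (fun i => (x.el i).mem x ⊓ (x.el i).mem w)) = z.mem x ⊓ z.mem w := by
        intro z
        rw [bmem_mk]
        apply le_antisymm
        · refine iSup_le fun i => ?_
          have e1 : beq z.1 (x.el i).1 = (x.el i).eq z := beq_symm _ _
          rw [e1]
          refine le_inf ?_ ?_
          · refine le_trans ?_ (HSet.mem_congr_left (x.el i) z x)
            exact le_inf inf_le_right (inf_le_left.trans inf_le_left)
          · refine le_trans ?_ (HSet.mem_congr_left (x.el i) z w)
            exact le_inf inf_le_right (inf_le_left.trans inf_le_right)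
        · rw [HSet.mem_eq z x, iSup_inf_eq]
          refine iSup_le fun i => le_iSup_of_le i ?_
          refine le_inf (le_inf ?_ ?_) ?_
          · exact inf_le_left.trans (inf_le_left.trans (x.vl_le_mem i))
          · refine le_trans ?_ (HSet.mem_congr_left z (x.el i) w)
            exact inf_le_inf_right _ inf_le_right
          · exact inf_le_left.trans inf_le_right
      have hHS : S.HS (.mk x.idx (fun i => (x.el i).1)
          (fun i => (x.el i).mem x ⊓ (x.el i).mem w)) := by
        apply HS_of_equivariant x.el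
        filter_upwards [hsym] with g hg z
        rw [hval, hval, hg]
      refine le_iSup_of_le ⟨_, hHS⟩ ?_
      refine le_trans (b := (⨅ z : S.HSet, z.mem w ⇨ z.mem x) ⊓
        w.eq ⟨(.mk x.idx (fun i => (x.el i).1)
          (fun i => (x.el i).mem x ⊓ (x.el i).mem w)), hHS⟩) ?_ ?_
      · refine le_inf le_rfl (HSet.le_eq (fun z => ?_) (fun z => ?_))
        · change _ ≤ bmem z.1 _
          rw [hval]
          refine le_inf ?_ inf_le_right
          exact (inf_le_inf_right _ (iInf_le _ z)).trans himp_inf_le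
        · change _ ⊓ bmem z.1 _ ≤ _
          rw [hval]
          exact inf_le_right.trans inf_le_right
      · refine le_inf ?_ inf_le_right
        have h1 := fml_ext (S := S) (Fml.all ((Fml.mem 0 1).imp (Fml.mem 0 2))) (fun _ => x) w
          ⟨(.mk x.idx (fun i => (x.el i).1)
            (fun i => (x.el i).mem x ⊓ (x.el i).mem w)), hHS⟩
        simp only [bval_all, bval_imp, bval_mem, scons_zero, scons_one, scons_two] at h1
        rw [inf_comm]
        exact h1)
  exact ⟨p, fun w => by rw [hp]; simp⟩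

/-- Foundation. -/
theorem hs_found (x : S.HSet) :
    (⨆ y : S.HSet, y.mem x) ≤ ⨆ y : S.HSet, y.mem x ⊓ ⨅ z : S.HSet, z.mem y ⇨ (z.mem x)ᶜ := by
  set c : S.B := ⨆ y : S.HSet, y.mem x ⊓ ⨅ z : S.HSet, z.mem y ⇨ (z.mem x)ᶜ with hc
  have key : ∀ (y : Name S.B) (hy : S.HS y), (⟨y, hy⟩ : S.HSet).mem x ≤ c := by
    intro y
    induction y with
    | mk ι f b ih =>
      intro hy
      set Y : S.HSet := ⟨.mk ι f b, hy⟩ with hY
      have h1 : Y.mem x ⊓ cᶜ ≤ ⊥ := by
        have h2 : cᶜ ≤ Y.mem x ⇨ ⨆ z : S.HSet, z.mem Y ⊓ z.mem x := by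
          rw [hc, compl_iSup]
          refine (iInf_le _ Y).trans ?_
          rw [compl_inf, himp_eq, compl_iInf, sup_comm]
          refine sup_le_sup_right ?_ _
          refine iSup_le fun z => le_iSup_of_le z ?_
          rw [himp_eq, compl_sup, compl_compl, compl_compl, inf_comm]
        calc Y.mem x ⊓ cᶜ ≤ (⨆ z : S.HSet, z.mem Y ⊓ z.mem x) ⊓ cᶜ := by
              refine le_inf ?_ inf_le_right
              rw [inf_comm]
              exact (inf_le_inf_right _ h2).trans himp_inf_le
          _ ≤ c ⊓ cᶜ := by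
              refine inf_le_inf_right _ (iSup_le fun z => ?_)
              have h3 : z.mem Y = ⨆ i : ι, b i ⊓ z.eq ⟨f i, hy.2 i⟩ := rfl
              rw [h3, iSup_inf_eq]
              refine iSup_le fun i => ?_
              refine le_trans ?_ (ih i (hy.2 i))
              refine le_trans ?_ (HSet.mem_congr_left z _ x)
              exact inf_le_inf_right _ inf_le_right
          _ ≤ ⊥ := by simp
      rw [le_bot_iff, ← disjoint_iff, disjoint_compl_right_iff] at h1
      exact h1
  exact iSup_le fun y => key y.1 y.2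

/-- Replacement (from functionality). -/
theorem hs_repl (x : S.HSet) (φ : Fml) (v : ℕ → S.HSet) : ∃ p : S.HSet, ∀ w : S.HSet, w.mem p =
    (⨅ a : S.HSet, a.mem x ⇨ ⨅ b : S.HSet, ⨅ b' : S.HSet, bval φ (scons b (scons a v)) ⇨
      (bval φ (scons b' (scons a v)) ⇨ b.eq b')) ⊓
    ⨆ a : S.HSet, a.mem x ⊓ bval φ (scons w (scons a v)) := by
  classical
  -- formula: variables 0 = w, 1 = x, 2.. = v
  let uq : Fml := Fml.all ((Fml.mem 0 2).imp (Fml.all (Fml.all
    ((φ.ren (fun n => Nat.casesOn n 1 (fun m => Nat.casesOn m 2 (fun k => k + 5)))).imp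
      ((φ.ren (fun n => Nat.casesOn n 0 (fun m => Nat.casesOn m 2 (fun k => k + 5)))).imp
        (Fml.eq 1 0))))))
  let exf : Fml := Fml.ex ((Fml.mem 0 2).and
    (φ.ren (fun n => Nat.casesOn n 1 (fun m => Nat.casesOn m 0 (fun k => k + 3)))))
  have huq : ∀ w : S.HSet, bval uq (scons w (scons x v)) =
      ⨅ a : S.HSet, a.mem x ⇨ ⨅ b : S.HSet, ⨅ b' : S.HSet, bval φ (scons b (scons a v)) ⇨
      (bval φ (scons b' (scons a v)) ⇨ b.eq b') := by
    intro w
    simp only [uq, bval_all, bval_imp, bval_mem, bval_eq, scons_zero, scons_one, scons_two,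
      bval_ren]
    refine iInf_congr fun a => ?_
    congr 1
    refine iInf_congr fun b => iInf_congr fun b' => ?_
    congr 1
    · congr 1
      funext n
      rcases n with _ | _ | n <;> rfl
    · congr 2
      funext n
      rcases n with _ | _ | n <;> rfl
  have hex : ∀ w : S.HSet, bval exf (scons w (scons x v)) =
      ⨆ a : S.HSet, a.mem x ⊓ bval φ (scons w (scons a v)) := by
    intro w
    simp only [exf, bval_ex, bval_and, bval_mem, scons_zero, scons_two, bval_ren]
    refine iSup_congr fun a => ?_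
    congr 2
    funext n
    rcases n with _ | _ | n <;> rfl
  let β : x.idx × S.B → S.HSet := fun s =>
    if h : ∃ b : S.HSet, bval φ (scons b (scons (x.el s.1) v)) = s.2 then h.choose else x
  have hβ : ∀ (i : x.idx) (b : S.HSet),
      bval φ (scons (β (i, bval φ (scons b (scons (x.el i) v)))) (scons (x.el i) v)) =
        bval φ (scons b (scons (x.el i) v)) := by
    intro i b
    have h : ∃ b' : S.HSet, bval φ (scons b' (scons (x.el i) v)) =
      bval φ (scons b (scons (x.el i) v)) := ⟨b, rfl⟩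
    have h2 : β (i, bval φ (scons b (scons (x.el i) v))) = h.choose := by
      simp only [β]
      rw [dif_pos h]
    rw [h2]
    exact h.choose_spec
  obtain ⟨p, hp⟩ := exists_set_of_fml (S := S) (uq.and exf) (scons x v) (I := x.idx × S.B) β (by
    intro w
    have hext := fml_ext (S := S) (uq.and exf) (scons x v) w
    simp only [bval_and, huq, hex] at hext ⊢
    set Q := ⨅ a : S.HSet, a.mem x ⇨ ⨅ b : S.HSet, ⨅ b' : S.HSet, bval φ (scons b (scons a v)) ⇨
      (bval φ (scons b' (scons a v)) ⇨ b.eq b') with hQ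
    suffices h : Q ⊓ (⨆ a : S.HSet, a.mem x ⊓ bval φ (scons w (scons a v))) ≤
        ⨆ s, (Q ⊓ (⨆ a : S.HSet, a.mem x ⊓ bval φ (scons w (scons a v)))) ⊓ w.eq (β s) by
      refine h.trans (iSup_mono fun s => ?_)
      refine le_inf ?_ inf_le_right
      rw [inf_comm]
      exact hext (β s)
    suffices h : Q ⊓ (⨆ a : S.HSet, a.mem x ⊓ bval φ (scons w (scons a v))) ≤
        ⨆ s, w.eq (β s) by
      rw [← inf_iSup_eq]
      exact le_inf le_rfl h
    rw [inf_iSup_eq]
    refine iSup_le fun a => ?_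
    rw [HSet.mem_eq a x, iSup_inf_eq, inf_iSup_eq]
    refine iSup_le fun i => ?_
    refine le_iSup_of_le (i, bval φ (scons w (scons (x.el i) v))) ?_
    have h1 : x.vl i ⊓ a.eq (x.el i) ⊓ bval φ (scons w (scons a v)) ≤
        x.vl i ⊓ bval φ (scons w (scons (x.el i) v)) := by
      rw [inf_assoc]
      refine inf_le_inf_left _ ?_
      refine bval_congr_bd _ _ _ _ ?_
      intro k _
      rcases k with _ | _ | k
      · exact le_of_le_of_eq le_top (beq_refl _).symm
      · exact le_rfl
      · exact le_of_le_of_eq le_top (beq_refl _).symm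
    refine (inf_le_inf_left _ h1).trans ?_
    have h2 : Q ⊓ (x.vl i) ≤ bval φ (scons w (scons (x.el i) v)) ⇨
        (bval φ (scons (β (i, bval φ (scons w (scons (x.el i) v)))) (scons (x.el i) v)) ⇨
          w.eq (β (i, bval φ (scons w (scons (x.el i) v))))) := by
      rw [hQ]
      refine (inf_le_inf (iInf_le _ (x.el i)) (x.vl_le_mem i)).trans (himp_inf_le.trans ?_)
      exact (iInf_le _ w).trans (iInf_le _ _)
    rw [hβ] at h2
    rw [← inf_assoc]
    refine (inf_le_inf_right _ h2).trans ?_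
    set q := bval φ (scons w (scons (x.el i) v))
    rw [himp_himp, inf_idem]
    exact himp_inf_le)
  refine ⟨p, fun w => ?_⟩
  rw [hp, bval_and, huq, hex]

end SymSys

end Pool.Agent.Lib.SymZF
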