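import Mathlib
import Pool.Agent.Lib.SymZF.HSAxioms

set_option autoImplicit false

open Set

namespace Pool.Agent.Lib.SymZF

open Name

namespace Name

variable {B : Type} [CompleteBooleanAlgebra B]

/-- The successor `x ∪ {x}` of a name. -/
def succ (x : Name B) : Name B :=
  mk (Option x.idx) (fun o => o.elim x x.el) (fun o => o.elim ⊤ x.vl)

lemma bmem_succ (w x : Name B) : bmem w x.succ = bmem w x ⊔ beq w x := by
  cases x with
  | mk ι f b =>
    rw [succ, bmem_mk, iSup_option, sup_comm]
    simp only [Option.elim_none, Option.elim_some, top_inf_eq]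
    rfl

/-- The numerals. -/
def num (B : Type) [CompleteBooleanAlgebra B] : ℕ → Name B
  | 0 => mk Empty (fun i => i.elim) (fun i => i.elim)
  | n + 1 => (num B n).succ

/-- The unordered pair. -/
def pair (x y : Name B) : Name B := mk Bool (fun i => cond i x y) (fun _ => ⊤)

end Name

namespace SymSys

variable {S : SymSys}

lemma act_succ (g : S.G) (x : Name S.B) : S.act g x.succ = (S.act g x).succ := by
  cases x with
  | mk ι f b =>
    simp only [succ, act_mk]
    change Name.mk (Option ι) _ _ = Name.mk (Option ι) _ _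
    congr 1
    · funext o
      cases o <;> rfl
    · funext o
      cases o
      · exact map_top _
      · rfl

lemma act_num (g : S.G) (n : ℕ) : S.act g (num S.B n) = num S.B n := by
  induction n with
  | zero =>
    simp only [num, act_mk]
    congr 1
    · funext i; exact i.elim
    · funext i; exact i.elim
  | succ n ih => rw [num, act_succ, ih]

lemma act_pair (g : S.G) (x y : Name S.B) : S.act g (x.pair y) = (S.act g x).pair (S.act g y) := by
  simp only [pair, act_mk]
  congr 1
  · funext i; cases i <;> rfl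
  · funext i; exact map_top _

/-- A name whose family of elements is permuted by the group is hereditarily symmetric. -/
lemma HS_of_family {I : Type} (f : I → S.HSet) (b : I → S.B)
    (h : ∀ᶠ g in S.F, (∀ i, ∃ j, ((f i).smul g).eq (f j) = ⊤ ∧ S.α g (b i) ≤ b j) ∧
      (∀ j, ∃ i, ((f i).smul g).eq (f j) = ⊤ ∧ b j ≤ S.α g (b i))) :
    S.HS (.mk I (fun i => (f i).1) b) := by
  refine ⟨?_, fun i => (f i).2⟩
  refine Filter.mem_of_superset h ?_
  rintro g ⟨h1, h2⟩
  simp only [mem_ofPred_eq]
  rw [eq_top_iff, act_mk, le_beq_iff]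
  refine ⟨fun i => ?_, fun j => ?_⟩
  · obtain ⟨j, hj1, hj2⟩ := h1 i
    rw [top_inf_eq, bmem_mk]
    refine le_iSup_of_le j (le_inf hj2 ?_)
    have : beq (S.act g (f i).1) (f j).1 = ⊤ := hj1
    rw [this]; exact le_top
  · obtain ⟨i, hi1, hi2⟩ := h2 j
    rw [top_inf_eq, bmem_mk]
    refine le_iSup_of_le i (le_inf hi2 ?_)
    have : beq (S.act g (f i).1) (f j).1 = ⊤ := hi1
    rw [beq_symm, this]; exact le_top

/-- A name fixed by the whole group. -/
lemma HS_of_fixed {x : Name S.B} (h : ∀ g, S.act g x = x) (h2 : ∀ i, S.HS (x.el i)) : S.HS x := by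
  cases x with
  | mk ι f b =>
    refine ⟨?_, h2⟩
    refine Filter.mem_of_superset Filter.univ_mem ?_
    intro g _
    simp only [mem_ofPred_eq]
    rw [h g, beq_refl]

lemma HS_num (n : ℕ) : S.HS (num S.B n) := by
  induction n with
  | zero => exact HS_of_fixed (fun g => act_num g 0) (fun i => Empty.elim i)
  | succ n ih =>
    refine HS_of_fixed (fun g => act_num g (n + 1)) ?_
    intro i
    change Option (num S.B n).idx at i
    cases i with
    | none => exact ih
    | some i => exact (HSet.el ⟨num S.B n, ih⟩ i).2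

/-- The numerals as hereditarily symmetric names. -/
def HSet.num (S : SymSys) (n : ℕ) : S.HSet := ⟨Name.num S.B n, HS_num n⟩

lemma HSet.mem_num_zero (w : S.HSet) : w.mem (HSet.num S 0) = ⊥ := by
  change bmem w.1 (Name.num S.B 0) = ⊥
  rw [Name.num, bmem_mk, iSup_of_empty]

lemma HSet.mem_num_succ (w : S.HSet) (n : ℕ) :
    w.mem (HSet.num S (n + 1)) = w.mem (HSet.num S n) ⊔ w.eq (HSet.num S n) :=
  Name.bmem_succ _ _

@[simp] lemma HSet.smul_num (g : S.G) (n : ℕ) : (HSet.num S n).smul g = HSet.num S n :=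
  HSet.ext (act_num g n)

/-- The name of `ω`. -/
def HSet.om (S : SymSys) : S.HSet :=
  ⟨.mk ℕ (fun n => (HSet.num S n).1) (fun _ => ⊤), HS_of_family (HSet.num S) _
    (Filter.Eventually.of_forall fun g =>
      ⟨fun i => ⟨i, by simp, le_top⟩, fun i => ⟨i, by simp, by simp⟩⟩)⟩

lemma HSet.mem_om (w : S.HSet) : w.mem (HSet.om S) = ⨆ n, w.eq (HSet.num S n) := by
  change bmem w.1 (.mk ℕ (fun n => (HSet.num S n).1) (fun _ => ⊤)) = _
  rw [bmem_mk]
  refine iSup_congr fun n => ?_
  rw [top_inf_eq]; rfl

/-- The unordered pair of hereditarily symmetric names. -/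
def HSet.pair (x y : S.HSet) : S.HSet :=
  ⟨x.1.pair y.1, by
    have : S.HS (.mk Bool (fun i => (cond i x y : S.HSet).1) (fun _ => ⊤)) := by
      apply HS_of_family (fun i => (cond i x y : S.HSet))
      filter_upwards [x.sym, y.sym] with g h1 h2
      refine ⟨fun i => ⟨i, ?_, le_top⟩, fun i => ⟨i, ?_, by simp⟩⟩
      · cases i
        · exact h2
        · exact h1
      · cases i
        · exact h2
        · exact h1
    have e : (fun i : Bool => (cond i x y : S.HSet).1) = fun i => cond i x.1 y.1 := by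
      funext i; cases i <;> rfl
    rw [e] at this
    exact this⟩

lemma HSet.mem_pair (w x y : S.HSet) : w.mem (x.pair y) = w.eq x ⊔ w.eq y := by
  change bmem w.1 (.mk Bool (fun i => cond i x.1 y.1) (fun _ => ⊤)) = _
  rw [bmem_mk, iSup_bool_eq]
  simp only [top_inf_eq]
  rfl

lemma HSet.smul_pair (g : S.G) (x y : S.HSet) :
    (x.pair y).smul g = (x.smul g).pair (y.smul g) :=
  HSet.ext (act_pair g x.1 y.1)

/-- The ordered pair of hereditarily symmetric names. -/
def HSet.opair (x y : S.HSet) : S.HSet := (x.pair x).pair (x.pair y)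

lemma HSet.smul_opair (g : S.G) (x y : S.HSet) :
    (x.opair y).smul g = (x.smul g).opair (y.smul g) := by
  rw [opair, opair, smul_pair, smul_pair, smul_pair]

/-- A set name from a permuted family. -/
def HSet.fam {I : Type} (f : I → S.HSet) (b : I → S.B)
    (h : ∀ᶠ g in S.F, (∀ i, ∃ j, ((f i).smul g).eq (f j) = ⊤ ∧ S.α g (b i) ≤ b j) ∧
      (∀ j, ∃ i, ((f i).smul g).eq (f j) = ⊤ ∧ b j ≤ S.α g (b i))) : S.HSet :=
  ⟨.mk I (fun i => (f i).1) b, HS_of_family f b h⟩

lemma HSet.mem_fam {I : Type} (f : I → S.HSet) (b : I → S.B) (h) (w : S.HSet) :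
    w.mem (HSet.fam f b h) = ⨆ i, b i ⊓ w.eq (f i) := rfl

end SymSys

end Pool.Agent.Lib.SymZF
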