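import Mathlib
import Pool.Agent.Lib.SymZF.HSInf

set_option autoImplicit false

open Set

namespace Pool.Agent.Lib.SymZF

section closure

/-- One step of the closure. -/
def closStep {X : Type*} {K : Type} (Γ : K → List X → X) (A : Set X) : Set X :=
  A ∪ range (fun p : K × List A => Γ p.1 (p.2.map Subtype.val))

/-- Closure of a countable set under countably many finitary operations. -/
lemma exists_closed {X : Type*} {K : Type} [Countable K] (Γ : K → List X → X) (c : ℕ → X) :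
    ∃ ν : ℕ → X, (∀ n, ∃ j, ν j = c n) ∧ ∀ k (l : List ℕ), ∃ j, ν j = Γ k (l.map ν) := by
  classical
  obtain ⟨C, hC0, hCs⟩ : ∃ C : ℕ → Set X, C 0 = range c ∧ ∀ n, C (n + 1) = closStep Γ (C n) :=
    ⟨fun n => Nat.rec (range c) (fun _ A => closStep Γ A) n, rfl, fun n => rfl⟩
  have hcount : ∀ n, (C n).Countable := by
    intro n
    induction n with
    | zero => rw [hC0]; exact countable_range c
    | succ n ih =>
      have := ih.to_subtype
      rw [hCs, closStep]
      have hc : Countable (K × List (C n)) := inferInstance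
      exact ih.union (countable_range _)
  have hmono : Monotone C := monotone_nat_of_le_succ fun n => by
    rw [hCs, closStep]; exact subset_union_left
  obtain ⟨ν, hν⟩ := (countable_iUnion hcount).exists_eq_range ⟨c 0, mem_iUnion.2 ⟨0, by rw [hC0]; exact ⟨0, rfl⟩⟩⟩
  refine ⟨ν, fun n => ?_, fun k l => ?_⟩
  · have : c n ∈ range ν := by rw [← hν]; exact mem_iUnion.2 ⟨0, by rw [hC0]; exact ⟨n, rfl⟩⟩
    exact this
  · have h1 : ∃ n, ∀ i ∈ l, ν i ∈ C n := by
      induction l with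
      | nil => exact ⟨0, by simp⟩
      | cons a l ih =>
        obtain ⟨n, hn⟩ := ih
        have : ν a ∈ ⋃ n, C n := by rw [hν]; exact ⟨a, rfl⟩
        obtain ⟨m, hm⟩ := mem_iUnion.1 this
        refine ⟨max n m, fun i hi => ?_⟩
        rcases List.mem_cons.1 hi with rfl | hi
        · exact hmono (le_max_right _ _) hm
        · exact hmono (le_max_left _ _) (hn i hi)
    obtain ⟨n, hn⟩ := h1
    have h2 : Γ k (l.map ν) ∈ C (n + 1) := by
      rw [hCs, closStep]
      refine Or.inr ⟨(k, l.pmap (fun i hi => (⟨ν i, hi⟩ : C n)) hn), ?_⟩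
      simp only [List.map_pmap]
      congr 1
      rw [List.pmap_eq_map]
    have h3 : Γ k (l.map ν) ∈ ⋃ n, C n := mem_iUnion.2 ⟨_, h2⟩
    rw [hν] at h3
    exact h3

end closure

/-- A countable dense subset of the algebra of a symmetric system. -/
structure DSub (S : SymSys) where
  /-- the conditions -/
  P : Type
  [cP : Countable P]
  /-- the embedding -/
  e : P → S.B
  ne : ∀ p, e p ≠ ⊥
  dense : ∀ b : S.B, b ≠ ⊥ → ∃ p, e p ≤ b

attribute [instance] DSub.cP

namespace SymSys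

variable {S : SymSys}

/-- The assignment given by a list. -/
def asg (l : List S.HSet) : ℕ → S.HSet := fun i => l.getD i (HSet.num S 0)

open Classical in
/-- Skolem operations. -/
noncomputable def skolem (D : DSub S) (k : Fml × D.P) (l : List S.HSet) : S.HSet :=
  if h : ∃ x : S.HSet, ∃ q : D.P, D.e q ≤ D.e k.2 ∧ D.e q ≤ bval k.1 (scons x (asg l)) then
    h.choose else HSet.num S 0

lemma skolem_spec (D : DSub S) (φ : Fml) (p : D.P) (l : List S.HSet)
    (h : D.e p ≤ ⨆ x : S.HSet, bval φ (scons x (asg l))) :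
    ∃ q : D.P, D.e q ≤ D.e p ∧ D.e q ≤ bval φ (scons (skolem D (φ, p) l) (asg l)) := by
  have h1 : ∃ x : S.HSet, ∃ q : D.P, D.e q ≤ D.e p ∧ D.e q ≤ bval φ (scons x (asg l)) := by
    by_contra hcon
    push Not at hcon
    apply D.ne p
    rw [← le_bot_iff]
    calc D.e p ≤ (⨆ x : S.HSet, bval φ (scons x (asg l))) ⊓ D.e p := le_inf h le_rfl
      _ ≤ ⊥ := by
        rw [iSup_inf_eq]
        refine iSup_le fun x => ?_
        by_contra hne
        obtain ⟨q, hq⟩ := D.dense _ (fun h => hne (le_of_eq h))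
        exact hcon x q (hq.trans inf_le_right) (hq.trans inf_le_left)
  have h2 : skolem D (φ, p) l = h1.choose := by
    unfold skolem
    exact dif_pos h1
  rw [h2]
  exact h1.choose_spec

lemma getD_map_ν (ν : ℕ → S.HSet) (l : List ℕ) (i : ℕ) (h : i < l.length) :
    asg (l.map ν) i = ν (l[i]) := by
  simp [asg, List.getD, h]

/-- A countable set of names closed under the Skolem operations. -/
structure Names (D : DSub S) where
  /-- the enumeration -/
  ν : ℕ → S.HSet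
  sk : ∀ k (l : List ℕ), ∃ j, ν j = skolem D k (l.map ν)
  hnum : ∀ n, ∃ j, ν j = HSet.num S n
  hom : ∃ j, ν j = HSet.om S
  hpair : ∀ i j, ∃ k, ν k = (ν i).pair (ν j)

/-- the list of the first `n` values -/
lemma asg_list (ν : ℕ → S.HSet) (s : ℕ → ℕ) (n i : ℕ) (hi : i < n) :
    asg (((List.range n).map s).map ν) i = ν (s i) := by
  rw [getD_map_ν _ _ _ (by simpa using hi)]
  simp

lemma bval_scons_list (ν : ℕ → S.HSet) (φ : Fml) (s : ℕ → ℕ) (x : S.HSet) :
    bval φ (scons x (asg (((List.range φ.bd).map s).map ν))) =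
      bval φ (scons x (fun i => ν (s i))) := by
  apply bval_bd
  intro i hi
  cases i with
  | zero => rfl
  | succ n =>
    simp only [scons_succ]
    exact asg_list ν s _ n (by omega)

lemma Names.iSup_eq {D : DSub S} (N : Names D) (φ : Fml) (s : ℕ → ℕ) :
    (⨆ j, bval φ (scons (N.ν j) (fun i => N.ν (s i)))) =
      ⨆ x : S.HSet, bval φ (scons x (fun i => N.ν (s i))) := by
  apply le_antisymm
  · exact iSup_le fun j => le_iSup (fun x : S.HSet => bval φ (scons x (fun i => N.ν (s i)))) _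
  · by_contra hcon
    rw [← disjoint_compl_right_iff, disjoint_iff] at hcon
    obtain ⟨p, hp⟩ := D.dense _ hcon
    have h1 : D.e p ≤ ⨆ x : S.HSet, bval φ (scons x (asg (((List.range φ.bd).map s).map N.ν))) := by
      simp only [bval_scons_list]
      exact hp.trans inf_le_left
    obtain ⟨q, hq1, hq2⟩ := skolem_spec D φ p _ h1
    rw [bval_scons_list] at hq2
    obtain ⟨j, hj⟩ := N.sk (φ, p) ((List.range φ.bd).map s)
    rw [← hj] at hq2
    apply D.ne q
    rw [← le_bot_iff]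
    calc D.e q ≤ (⨆ j, bval φ (scons (N.ν j) (fun i => N.ν (s i)))) ⊓
          (⨆ j, bval φ (scons (N.ν j) (fun i => N.ν (s i))))ᶜ :=
          le_inf (hq2.trans (le_iSup (fun j => bval φ (scons (N.ν j) (fun i => N.ν (s i)))) j))
            ((hq1.trans hp).trans inf_le_right)
      _ ≤ ⊥ := by simp

/-- A generic filter for a countable set of names. -/
structure Gen {D : DSub S} (N : Names D) where
  /-- the filter -/
  U : Set S.B
  up : ∀ {a b : S.B}, a ∈ U → a ≤ b → b ∈ U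
  inf : ∀ {a b : S.B}, a ∈ U → b ∈ U → a ⊓ b ∈ U
  top : ⊤ ∈ U
  bot : ⊥ ∉ U
  cond : ∀ b ∈ U, ∃ p : D.P, D.e p ∈ U ∧ D.e p ≤ b
  dec : ∀ (φ : Fml) (v : ℕ → ℕ), bval φ (fun i => N.ν (v i)) ∈ U ∨
    (bval φ (fun i => N.ν (v i)))ᶜ ∈ U
  ex : ∀ (φ : Fml) (v : ℕ → ℕ), (⨆ x : S.HSet, bval φ (scons x (fun i => N.ν (v i)))) ∈ U →
    ∃ j, bval φ (scons (N.ν j) (fun i => N.ν (v i))) ∈ U
  memg : ∀ i j, (N.ν i).mem (N.ν j) ∈ U →
    ∃ k : (N.ν j).idx, (N.ν j).vl k ∈ U ∧ (N.ν i).eq ((N.ν j).el k) ∈ U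

/-- Existence of generic filters. -/
theorem exists_gen {D : DSub S} (N : Names D) (Fm : ℕ → Set S.B) (p₀ : D.P) :
    ∃ G : Gen N, D.e p₀ ∈ G.U ∧ ∀ n, (∃ b ∈ Fm n, b ∈ G.U) ∨ (sSup (Fm n))ᶜ ∈ G.U := by
  classical
  -- all the families
  let J : Type := ((Fml × List ℕ) ⊕ (Fml × List ℕ)) ⊕ ((ℕ × ℕ) ⊕ ℕ)
  let A : J → Set S.B := fun j => match j with
    | .inl (.inl (φ, l)) => {bval φ (asg (l.map N.ν))}
    | .inl (.inr (φ, l)) => range fun j => bval φ (scons (N.ν j) (asg (l.map N.ν)))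
    | .inr (.inl (i, j)) => range fun k => (N.ν j).vl k ⊓ (N.ν i).eq ((N.ν j).el k)
    | .inr (.inr n) => Fm n
  have hJ : Countable J := inferInstance
  obtain ⟨enum, henum⟩ := exists_surjective_nat J
  have hstep : ∀ (n : ℕ) (p : D.P), ∃ q : D.P, D.e q ≤ D.e p ∧
      ((∃ b ∈ A (enum n), D.e q ≤ b) ∨ D.e q ≤ (sSup (A (enum n)))ᶜ) := by
    intro n p
    by_cases h : D.e p ⊓ sSup (A (enum n)) = ⊥
    · exact ⟨p, le_rfl, Or.inr (le_compl_iff_disjoint_right.2 (disjoint_iff.2 h))⟩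
    · rw [inf_sSup_eq, iSup_eq_bot] at h
      push Not at h
      obtain ⟨b, hb⟩ := h
      rw [Ne, iSup_eq_bot] at hb
      push Not at hb
      obtain ⟨hbA, hb2⟩ := hb
      obtain ⟨q, hq⟩ := D.dense _ hb2
      exact ⟨q, hq.trans inf_le_left, Or.inl ⟨b, hbA, hq.trans inf_le_right⟩⟩
  choose nx hnx1 hnx2 using hstep
  let s : ℕ → D.P := fun n => Nat.rec p₀ (fun n p => nx n p) n
  have hs0 : s 0 = p₀ := rfl
  have hss : ∀ n, s (n + 1) = nx n (s n) := fun n => rfl
  have hanti : Antitone fun n => D.e (s n) :=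
    antitone_nat_of_succ_le fun n => by rw [hss]; exact hnx1 n (s n)
  let U : Set S.B := {b | ∃ n, D.e (s n) ≤ b}
  have hup : ∀ {a b : S.B}, a ∈ U → a ≤ b → b ∈ U := by
    rintro a b ⟨n, hn⟩ hab
    exact ⟨n, hn.trans hab⟩
  have hinf : ∀ {a b : S.B}, a ∈ U → b ∈ U → a ⊓ b ∈ U := by
    rintro a b ⟨n, hn⟩ ⟨m, hm⟩
    exact ⟨max n m, le_inf ((hanti (le_max_left _ _)).trans hn)
      ((hanti (le_max_right _ _)).trans hm)⟩
  have hmeet : ∀ j : J, (∃ b ∈ A j, b ∈ U) ∨ (sSup (A j))ᶜ ∈ U := by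
    intro j
    obtain ⟨n, rfl⟩ := henum j
    rcases hnx2 n (s n) with ⟨b, hb, hb2⟩ | h
    · exact Or.inl ⟨b, hb, n + 1, by rw [hss]; exact hb2⟩
    · exact Or.inr ⟨n + 1, by rw [hss]; exact h⟩
  have hbot : ⊥ ∉ U := by
    rintro ⟨n, hn⟩
    exact D.ne _ (le_bot_iff.1 hn)
  have hlist : ∀ (φ : Fml) (v : ℕ → ℕ), bval φ (asg (((List.range φ.bd).map v).map N.ν)) =
      bval φ (fun i => N.ν (v i)) := by
    intro φ v
    exact bval_bd _ _ _ fun i hi => asg_list N.ν v _ i hi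
  refine ⟨⟨U, hup, hinf, ⟨0, le_top⟩, hbot, ?_, ?_, ?_, ?_⟩, ⟨0, le_rfl⟩, fun n => ?_⟩
  · rintro b ⟨n, hn⟩
    exact ⟨s n, ⟨n, le_rfl⟩, hn⟩
  · intro φ v
    rw [← hlist]
    rcases hmeet (.inl (.inl (φ, (List.range φ.bd).map v))) with ⟨b, hb, hb2⟩ | h
    · left
      simp only [A, mem_singleton_iff] at hb
      rwa [← hb]
    · right
      simpa only [A, sSup_singleton] using h
  · intro φ v hsup
    rcases hmeet (.inl (.inr (φ, (List.range φ.bd).map v))) with ⟨b, hb, hb2⟩ | h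
    · obtain ⟨j, rfl⟩ := hb
      simp only [bval_scons_list] at hb2
      exact ⟨j, hb2⟩
    · exfalso
      simp only [A, sSup_range, bval_scons_list] at h
      rw [Names.iSup_eq] at h
      exact hbot (hup (hinf hsup h) (by simp))
  · intro i j hij
    rcases hmeet (.inr (.inl (i, j))) with ⟨b, hb, hb2⟩ | h
    · obtain ⟨k, rfl⟩ := hb
      exact ⟨k, hup hb2 inf_le_left, hup hb2 inf_le_right⟩
    · exfalso
      simp only [A, sSup_range] at h
      rw [HSet.mem_eq] at hij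
      exact hbot (hup (hinf hij h) (by simp))
  · exact hmeet (.inr (.inr n))

/-- Existence of closed countable sets of names. -/
theorem exists_names (D : DSub S) (c : ℕ → S.HSet) (Γ : ℕ → List S.HSet → S.HSet) :
    ∃ N : Names D, (∀ n, ∃ j, N.ν j = c n) ∧ ∀ n (l : List ℕ), ∃ j, N.ν j = Γ n (l.map N.ν) := by
  obtain ⟨ν, h1, h2⟩ := exists_closed (K := (Fml × D.P) ⊕ (ℕ ⊕ ℕ ⊕ Unit ⊕ Unit))
    (fun k l => match k with
      | .inl k => skolem D k l
      | .inr (.inl n) => Γ n l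
      | .inr (.inr (.inl n)) => HSet.num S n
      | .inr (.inr (.inr (.inl _))) => HSet.om S
      | .inr (.inr (.inr (.inr _))) =>
        HSet.pair (l.getD 0 (HSet.num S 0)) (l.getD 1 (HSet.num S 0))) c
  exact ⟨⟨ν, fun k l => h2 (.inl k) l, fun n => h2 (.inr (.inr (.inl n))) [],
    h2 (.inr (.inr (.inr (.inl ())))) [], fun i j => h2 (.inr (.inr (.inr (.inr ())))) [i, j]⟩,
    h1, fun n l => h2 (.inr (.inl n)) l⟩

end SymSys

end Pool.Agent.Lib.SymZF
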