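import Mathlib
import Pool.Agent.Lib.SymZF.Generic

set_option autoImplicit false

open Set

namespace Pool.Agent.Lib.SymZF

namespace SymSys

variable {S : SymSys} {D : DSub S} {N : Names D}

namespace Gen

variable (G : Gen N)

/-- Equality of names modulo the generic filter. -/
def setoid : Setoid ℕ where
  r i j := (N.ν i).eq (N.ν j) ∈ G.U
  iseqv :=
    { refl := fun i => by rw [HSet.eq_refl]; exact G.top
      symm := fun {i j} h => by rw [HSet.eq_symm]; exact h
      trans := fun {i j k} h1 h2 => G.up (G.inf h1 h2) (HSet.eq_trans _ _ _) }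

/-- The generic symmetric model. -/
def M : Type := Quotient G.setoid

/-- The evaluation of names. -/
def toM (i : ℕ) : G.M := Quotient.mk G.setoid i

lemma toM_surj (x : G.M) : ∃ i, G.toM i = x := Quotient.exists_rep x

lemma toM_eq (i j : ℕ) : G.toM i = G.toM j ↔ (N.ν i).eq (N.ν j) ∈ G.U :=
  Quotient.eq (r := G.setoid)

/-- Membership in the model. -/
def E : G.M → G.M → Prop := Quotient.lift₂ (fun i j => (N.ν i).mem (N.ν j) ∈ G.U) (by
  have key : ∀ i j i' j', (N.ν i).eq (N.ν i') ∈ G.U → (N.ν j).eq (N.ν j') ∈ G.U →
      (N.ν i).mem (N.ν j) ∈ G.U → (N.ν i').mem (N.ν j') ∈ G.U := by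
    intro i j i' j' h1 h2 h
    have h3 := G.up (G.inf h1 h) (HSet.mem_congr_left _ _ _)
    exact G.up (G.inf h2 h3) (HSet.mem_congr_right _ _ _)
  intro i j i' j' h1 h2
  refine propext ⟨key i j i' j' h1 h2, key i' j' i j ?_ ?_⟩
  · rw [HSet.eq_symm]; exact h1
  · rw [HSet.eq_symm]; exact h2)

lemma E_toM (i j : ℕ) : G.E (G.toM i) (G.toM j) ↔ (N.ν i).mem (N.ν j) ∈ G.U := Iff.rfl

lemma compl_mem {b : S.B} (h : b ∈ G.U) (h' : bᶜ ∈ G.U) : False :=
  G.bot (G.up (G.inf h h') (by simp))

/-- The truth lemma. -/
theorem truth (φ : Fml) (v : ℕ → ℕ) :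
    Sat G.E φ (fun i => G.toM (v i)) ↔ bval φ (fun i => N.ν (v i)) ∈ G.U := by
  induction φ generalizing v with
  | bot => exact ⟨fun h => h.elim, fun h => G.bot h⟩
  | mem i j => exact G.E_toM _ _
  | eq i j => exact G.toM_eq _ _
  | imp φ ψ ih1 ih2 =>
    rw [sat_imp, ih1, ih2, bval_imp]
    constructor
    · intro h
      rcases G.dec φ v with h1 | h1
      · exact G.up (h h1) le_himp
      · exact G.up h1 (by rw [himp_eq]; exact le_sup_right)
    · intro h h1
      exact G.up (G.inf h h1) himp_inf_le
  | all φ ih =>
    rw [sat_all, bval_all]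
    have hc : ∀ j, (fun i => G.toM (scons j v i)) = scons (G.toM j) (fun i => G.toM (v i)) :=
      fun j => scons_comp j v G.toM
    have hc2 : ∀ j, (fun i => N.ν (scons j v i)) = scons (N.ν j) (fun i => N.ν (v i)) :=
      fun j => scons_comp j v N.ν
    constructor
    · intro h
      by_contra hcon
      have h1 : bval φ.neg.ex (fun i => N.ν (v i)) ∈ G.U := by
        rcases G.dec (.all φ) v with h1 | h1
        · exact (hcon h1).elim
        · rw [bval_all, compl_iInf] at h1
          simpa using h1
      rw [bval_ex] at h1
      obtain ⟨j, hj⟩ := G.ex _ _ h1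
      rw [bval_neg] at hj
      have h2 := h (G.toM j)
      rw [← hc, ih, hc2] at h2
      exact G.compl_mem h2 hj
    · intro h x
      obtain ⟨j, rfl⟩ := G.toM_surj x
      rw [← hc, ih, hc2]
      exact G.up h (iInf_le (fun x : S.HSet => bval φ (scons x (fun i => N.ν (v i)))) _)

/-- choose a preimage of an assignment -/
lemma exists_lift (w : ℕ → G.M) : ∃ v : ℕ → ℕ, w = fun i => G.toM (v i) := by
  choose v hv using fun i => G.toM_surj (w i)
  exact ⟨v, by funext i; exact (hv i).symm⟩

lemma sat_of_valid (φ : Fml) (w : ℕ → G.M) (h : ∀ v : ℕ → S.HSet, bval φ v = ⊤) :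
    Sat G.E φ w := by
  obtain ⟨v, rfl⟩ := G.exists_lift w
  rw [truth, h]
  exact G.top

end Gen

private lemma himp_self_inf (a : S.B) : (a ⇨ a) ⊓ (a ⇨ a) = ⊤ := by simp

/-- The generic symmetric model satisfies ZF. -/
theorem Gen.isZF (G : Gen N) : IsZF G.E where
  ext x y h := by
    have h1 := G.sat_of_valid
      ((Fml.all (Fml.iff (.mem 0 1) (.mem 0 2))).imp (.eq 0 1)) (scons x (fun _ => y)) (by
        intro v
        simp only [bval_imp, bval_all, bval_iff, bval_mem, bval_eq, scons_zero, scons_one,
          scons_two]
        rw [himp_eq_top_iff]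
        refine HSet.le_eq (fun z => ?_) (fun z => ?_)
        · exact (inf_le_inf_right _ ((iInf_le _ z).trans inf_le_left)).trans himp_inf_le
        · exact (inf_le_inf_right _ ((iInf_le _ z).trans inf_le_right)).trans himp_inf_le)
    simp only [sat_imp, sat_all, sat_iff, sat_mem, sat_eq, scons_zero, scons_one,
      scons_two] at h1
    exact h1 h
  found x h := by
    have h1 := G.sat_of_valid
      ((Fml.ex (.mem 0 1)).imp (Fml.ex ((Fml.mem 0 1).and
        (Fml.all ((Fml.mem 0 1).imp (Fml.neg (.mem 0 2))))))) (fun _ => x) (by
        intro v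
        simp only [bval_imp, bval_all, bval_ex, bval_and, bval_neg, bval_mem, scons_zero,
          scons_one, scons_two]
        rw [himp_eq_top_iff]
        exact hs_found _)
    simp only [sat_imp, sat_all, sat_ex, sat_and, sat_neg, sat_mem, scons_zero, scons_one,
      scons_two] at h1
    exact h1 h
  pair x y := by
    have h1 := G.sat_of_valid
      (Fml.ex (Fml.all ((Fml.mem 0 1).iff ((Fml.eq 0 2).or (.eq 0 3)))))
        (scons x (fun _ => y)) (by
        intro v
        simp only [bval_ex, bval_all, bval_iff, bval_or, bval_mem, bval_eq, scons_zero,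
          scons_one, scons_two, scons_three]
        obtain ⟨p, hp⟩ := hs_pair (v 0) (v 1)
        rw [eq_top_iff]
        refine le_iSup_of_le p ?_
        refine le_iInf fun z => ?_
        rw [hp, himp_self_inf])
    simpa using h1
  union x := by
    have h1 := G.sat_of_valid
      (Fml.ex (Fml.all ((Fml.mem 0 1).iff (Fml.ex ((Fml.mem 0 3).and (.mem 1 0))))))
        (fun _ => x) (by
        intro v
        simp only [bval_ex, bval_all, bval_iff, bval_and, bval_mem, scons_zero,
          scons_one, scons_two, scons_three]
        obtain ⟨p, hp⟩ := hs_union (v 0)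
        rw [eq_top_iff]
        refine le_iSup_of_le p ?_
        refine le_iInf fun z => ?_
        rw [hp, himp_self_inf])
    simpa using h1
  power x := by
    have h1 := G.sat_of_valid
      (Fml.ex (Fml.all ((Fml.mem 0 1).iff (Fml.all ((Fml.mem 0 1).imp (.mem 0 3))))))
        (fun _ => x) (by
        intro v
        simp only [bval_ex, bval_all, bval_iff, bval_imp, bval_mem, scons_zero,
          scons_one, scons_two, scons_three]
        obtain ⟨p, hp⟩ := hs_power (v 0)
        rw [eq_top_iff]
        refine le_iSup_of_le p ?_
        refine le_iInf fun z => ?_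
        rw [hp, himp_self_inf])
    simpa using h1
  infinity := by
    have h1 := G.sat_of_valid
      (Fml.ex ((Fml.ex ((Fml.all (Fml.neg (.mem 0 1))).and (.mem 0 1))).and
        (Fml.all ((Fml.mem 0 1).imp (Fml.ex ((Fml.all ((Fml.mem 0 1).iff
          ((Fml.mem 0 2).or (.eq 0 2)))).and (.mem 0 2)))))))
        (fun _ => G.toM 0) (by
        intro v
        simp only [bval_ex, bval_all, bval_and, bval_or, bval_iff, bval_imp, bval_neg, bval_mem,
          bval_eq, scons_zero, scons_one, scons_two]
        rw [eq_top_iff]
        refine le_iSup_of_le (HSet.om S) (le_inf ?_ ?_)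
        · refine le_iSup_of_le (HSet.num S 0) (le_inf ?_ ?_)
          · refine le_iInf fun z => ?_
            rw [HSet.mem_num_zero, compl_bot]
          · rw [HSet.mem_om]
            exact le_iSup_of_le 0 (by simp)
        · refine le_iInf fun x => ?_
          rw [HSet.mem_om, top_le_iff, himp_eq_top_iff]
          refine iSup_le fun n => ?_
          refine le_iSup_of_le (HSet.num S (n + 1)) (le_inf ?_ ?_)
          · refine le_iInf fun z => ?_
            rw [HSet.mem_num_succ]
            refine le_inf ?_ ?_
            · rw [le_himp_iff, inf_sup_left]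
              refine sup_le_sup ?_ ?_
              · rw [HSet.eq_symm]; exact HSet.mem_congr_right _ _ _
              · rw [HSet.eq_symm x, inf_comm]; exact HSet.eq_trans _ _ _
            · rw [le_himp_iff, inf_sup_left]
              refine sup_le_sup ?_ ?_
              · exact HSet.mem_congr_right _ _ _
              · rw [inf_comm]; exact HSet.eq_trans _ _ _
          · rw [HSet.mem_om]
            exact le_iSup_of_le (n + 1) (by simp))
    simpa using h1
  sep φ v x := by
    have h1 := G.sat_of_valid
      (Fml.ex (Fml.all ((Fml.mem 0 1).iff ((Fml.mem 0 2).and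
        (φ.ren (fun n => Nat.casesOn n 0 (fun m => m + 3)))))))
        (scons x v) (by
        intro v
        simp only [bval_ex, bval_all, bval_iff, bval_and, bval_mem, scons_zero,
          scons_one, scons_two, bval_ren]
        obtain ⟨p, hp⟩ := hs_sep (v 0) φ (fun n => v (n + 1))
        rw [eq_top_iff]
        refine le_iSup_of_le p ?_
        refine le_iInf fun z => ?_
        rw [hp]
        have e : (fun n => scons z (scons p v) (Nat.casesOn n 0 (fun m => m + 3) : ℕ)) =
            scons z (fun n => v (n + 1)) := by
          funext n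
          cases n <;> rfl
        rw [e, himp_self_inf])
    simp only [sat_ex, sat_all, sat_iff, sat_and, sat_mem, scons_zero,
          scons_one, scons_two, sat_ren] at h1
    obtain ⟨y, hy⟩ := h1
    refine ⟨y, fun z => ?_⟩
    rw [hy]
    have e : (fun n => scons z (scons y (scons x v)) (Nat.casesOn n 0 (fun m => m + 3) : ℕ)) =
        scons z v := by
      funext n
      cases n <;> rfl
    rw [e]
  repl φ v x h := by
    have h1 := G.sat_of_valid
      (Fml.ex (Fml.all ((Fml.mem 0 1).iff ((Fml.all ((Fml.mem 0 3).imp (Fml.all (Fml.all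
        ((φ.ren (fun n => Nat.casesOn n 1 (fun m => Nat.casesOn m 2 (fun k => k + 6)))).imp
        ((φ.ren (fun n => Nat.casesOn n 0 (fun m => Nat.casesOn m 2 (fun k => k + 6)))).imp
        (Fml.eq 1 0))))))).and
        (Fml.ex ((Fml.mem 0 3).and
          (φ.ren (fun n => Nat.casesOn n 1 (fun m => Nat.casesOn m 0 (fun k => k + 4))))))))))
        (scons x v) (by
        intro v
        simp only [bval_ex, bval_all, bval_iff, bval_and, bval_imp, bval_mem, bval_eq, scons_zero,
          scons_one, scons_two, scons_three, bval_ren]
        obtain ⟨p, hp⟩ := hs_repl (v 0) φ (fun n => v (n + 1))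
        rw [eq_top_iff]
        refine le_iSup_of_le p ?_
        refine le_iInf fun z => ?_
        rw [hp]
        have e1 : ∀ a b b' : S.HSet, (fun n => scons b' (scons b (scons a (scons z (scons p v))))
            (Nat.casesOn n 1 (fun m => Nat.casesOn m 2 (fun k => k + 6)) : ℕ)) =
            scons b (scons a (fun n => v (n + 1))) := by
          intro a b b'
          funext n
          rcases n with _ | _ | n <;> rfl
        have e2 : ∀ a b b' : S.HSet, (fun n => scons b' (scons b (scons a (scons z (scons p v))))
            (Nat.casesOn n 0 (fun m => Nat.casesOn m 2 (fun k => k + 6)) : ℕ)) =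
            scons b' (scons a (fun n => v (n + 1))) := by
          intro a b b'
          funext n
          rcases n with _ | _ | n <;> rfl
        have e3 : ∀ a : S.HSet, (fun n => scons a (scons z (scons p v))
            (Nat.casesOn n 1 (fun m => Nat.casesOn m 0 (fun k => k + 4)) : ℕ)) =
            scons z (scons a (fun n => v (n + 1))) := by
          intro a
          funext n
          rcases n with _ | _ | n <;> rfl
        simp only [e1, e2, e3]
        rw [himp_self_inf])
    simp only [sat_ex, sat_all, sat_iff, sat_and, sat_imp, sat_mem, sat_eq, scons_zero,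
          scons_one, scons_two, scons_three, sat_ren] at h1
    obtain ⟨y, hy⟩ := h1
    refine ⟨y, fun z => ?_⟩
    rw [hy]
    have e1 : ∀ a b b' : G.M, (fun n => scons b' (scons b (scons a (scons z (scons y
        (scons x v))))) (Nat.casesOn n 1 (fun m => Nat.casesOn m 2 (fun k => k + 6)) : ℕ)) =
        scons b (scons a v) := by
      intro a b b'
      funext n
      rcases n with _ | _ | n <;> rfl
    have e2 : ∀ a b b' : G.M, (fun n => scons b' (scons b (scons a (scons z (scons y
        (scons x v))))) (Nat.casesOn n 0 (fun m => Nat.casesOn m 2 (fun k => k + 6)) : ℕ)) =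
        scons b' (scons a v) := by
      intro a b b'
      funext n
      rcases n with _ | _ | n <;> rfl
    have e3 : ∀ a : G.M, (fun n => scons a (scons z (scons y (scons x v)))
        (Nat.casesOn n 1 (fun m => Nat.casesOn m 0 (fun k => k + 4)) : ℕ)) =
        scons z (scons a v) := by
      intro a
      funext n
      rcases n with _ | _ | n <;> rfl
    simp only [e1, e2, e3]
    constructor
    · exact fun h => h.2
    · refine fun h' => ⟨fun a ha b b' hb hb' => ?_, h'⟩
      exact (h a ha).unique hb hb'

end SymSys

end Pool.Agent.Lib.SymZF
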