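import Mathlib
import Pool.Agent.Lib.SymZF.Model
import Pool.Agent.Lib.SymZF.Internal

set_option autoImplicit false

open Set

namespace Pool.Agent.Lib.SymZF

namespace SymSys

variable {S : SymSys} {D : DSub S} {N : Names D}

/-- A name belongs to the countable set of names. -/
def Names.has (N : Names D) (σ : S.HSet) : Prop := ∃ j, N.ν j = σ

lemma Names.has_num (N : Names D) (n : ℕ) : N.has (HSet.num S n) := N.hnum n
lemma Names.has_om (N : Names D) : N.has (HSet.om S) := N.hom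
lemma Names.has_ν (N : Names D) (j : ℕ) : N.has (N.ν j) := ⟨j, rfl⟩
lemma Names.has_pair {N : Names D} {σ τ : S.HSet} (h : N.has σ) (h' : N.has τ) :
    N.has (σ.pair τ) := by
  obtain ⟨i, rfl⟩ := h
  obtain ⟨j, rfl⟩ := h'
  exact N.hpair i j
lemma Names.has_opair {N : Names D} {σ τ : S.HSet} (h : N.has σ) (h' : N.has τ) :
    N.has (σ.opair τ) := Names.has_pair (Names.has_pair h h) (Names.has_pair h h')

namespace Gen

variable (G : Gen N)

open Classical in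
/-- Evaluation of names. -/
noncomputable def ev (σ : S.HSet) : G.M := if h : N.has σ then G.toM h.choose else G.toM 0

lemma ev_ν (j : ℕ) : G.ev (N.ν j) = G.toM j := by
  have h : N.has (N.ν j) := ⟨j, rfl⟩
  rw [ev, dif_pos h, toM_eq, h.choose_spec, HSet.eq_refl]
  exact G.top

lemma ev_surj (x : G.M) : ∃ σ, N.has σ ∧ G.ev σ = x := by
  obtain ⟨j, rfl⟩ := G.toM_surj x
  exact ⟨N.ν j, ⟨j, rfl⟩, G.ev_ν j⟩

variable {G}

lemma ev_eq {σ τ : S.HSet} (h : N.has σ) (h' : N.has τ) : G.ev σ = G.ev τ ↔ σ.eq τ ∈ G.U := by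
  obtain ⟨i, rfl⟩ := h
  obtain ⟨j, rfl⟩ := h'
  rw [ev_ν, ev_ν, toM_eq]

lemma E_ev {σ τ : S.HSet} (h : N.has σ) (h' : N.has τ) :
    G.E (G.ev σ) (G.ev τ) ↔ σ.mem τ ∈ G.U := by
  obtain ⟨i, rfl⟩ := h
  obtain ⟨j, rfl⟩ := h'
  rw [ev_ν, ev_ν, E_toM]

lemma mem_el {σ τ : S.HSet} (h : N.has σ) (h' : N.has τ) (hm : σ.mem τ ∈ G.U) :
    ∃ k : τ.idx, τ.vl k ∈ G.U ∧ σ.eq (τ.el k) ∈ G.U := by
  obtain ⟨i, rfl⟩ := h
  obtain ⟨j, rfl⟩ := h'
  exact G.memg i j hm

theorem truth' (φ : Fml) (v : ℕ → S.HSet) (hv : ∀ i, N.has (v i)) :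
    Sat G.E φ (fun i => G.ev (v i)) ↔ bval φ v ∈ G.U := by
  choose s hs using hv
  have e : v = fun i => N.ν (s i) := by funext i; exact (hs i).symm
  subst e
  rw [← truth]
  simp only [ev_ν]

lemma E_ev_iff {τ : S.HSet} (h : N.has τ) (x : G.M) :
    G.E x (G.ev τ) ↔ ∃ σ, N.has σ ∧ G.ev σ = x ∧ σ.mem τ ∈ G.U := by
  obtain ⟨σ, hσ, rfl⟩ := G.ev_surj x
  rw [E_ev hσ h]
  constructor
  · exact fun hm => ⟨σ, hσ, rfl, hm⟩
  · rintro ⟨σ', hσ', he, hm⟩
    rw [ev_eq hσ' hσ] at he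
    exact G.up (G.inf he hm) (HSet.mem_congr_left _ _ _)

/-- The elements of the value of a set name whose elements are in the set of names. -/
lemma E_ev_fam {I : Type} {f : I → S.HSet} {b : I → S.B} {h}
    (hh : N.has (HSet.fam f b h)) (hf : ∀ i, N.has (f i)) (x : G.M) :
    G.E x (G.ev (HSet.fam f b h)) ↔ ∃ i, b i ∈ G.U ∧ x = G.ev (f i) := by
  rw [E_ev_iff hh]
  constructor
  · rintro ⟨σ, hσ, rfl, hm⟩
    obtain ⟨k, hk1, hk2⟩ := mem_el hσ hh hm
    exact ⟨k, hk1, (ev_eq hσ (hf k)).2 hk2⟩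
  · rintro ⟨i, hi, rfl⟩
    refine ⟨f i, hf i, rfl, ?_⟩
    rw [HSet.mem_fam]
    exact G.up hi (le_iSup_of_le i (by simp))

lemma isUPair_ev {σ τ : S.HSet} (h : N.has σ) (h' : N.has τ) :
    IsUPair G.E (G.ev σ) (G.ev τ) (G.ev (σ.pair τ)) := by
  intro x
  obtain ⟨ρ, hρ, rfl⟩ := G.ev_surj x
  rw [E_ev hρ (Names.has_pair h h'), ev_eq hρ h, ev_eq hρ h']
  constructor
  · intro hm
    obtain ⟨k, _, hk2⟩ := mem_el hρ (Names.has_pair h h') hm
    change Bool at k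
    cases k
    · exact Or.inr hk2
    · exact Or.inl hk2
  · intro hm
    rw [HSet.mem_pair]
    rcases hm with hm | hm
    · exact G.up hm le_sup_left
    · exact G.up hm le_sup_right

lemma isOPair_ev {σ τ : S.HSet} (h : N.has σ) (h' : N.has τ) :
    IsOPair G.E (G.ev σ) (G.ev τ) (G.ev (σ.opair τ)) :=
  ⟨_, _, isUPair_ev h h, isUPair_ev h h', isUPair_ev (Names.has_pair h h) (Names.has_pair h h')⟩

lemma isNum_ev (n : ℕ) : IsNum G.E n (G.ev (HSet.num S n)) := by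
  induction n with
  | zero =>
    intro x hx
    obtain ⟨ρ, hρ, rfl⟩ := G.ev_surj x
    rw [E_ev hρ (N.has_num 0), HSet.mem_num_zero] at hx
    exact G.bot hx
  | succ n ih =>
    refine ⟨_, ih, fun x => ?_⟩
    obtain ⟨ρ, hρ, rfl⟩ := G.ev_surj x
    rw [E_ev hρ (N.has_num _), E_ev hρ (N.has_num _), ev_eq hρ (N.has_num _)]
    constructor
    · intro hm
      obtain ⟨k, hk1, hk2⟩ := mem_el hρ (N.has_num _) hm
      change Option (Name.num S.B n).idx at k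
      cases k with
      | none => exact Or.inr hk2
      | some k =>
        left
        rw [HSet.mem_eq]
        refine G.up (G.inf hk1 hk2) ?_
        exact le_iSup_of_le (f := fun i : (HSet.num S n).idx => (HSet.num S n).vl i ⊓
          ρ.eq ((HSet.num S n).el i)) k le_rfl
    · intro hm
      rw [HSet.mem_num_succ]
      rcases hm with hm | hm
      · exact G.up hm le_sup_left
      · exact G.up hm le_sup_right

lemma isOmega_ev : IsOmega G.E (G.ev (HSet.om S)) := by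
  have hZ := G.isZF
  have key : ∀ x, G.E x (G.ev (HSet.om S)) ↔ ∃ n, x = G.ev (HSet.num S n) := by
    intro x
    rw [HSet.om]
    have := E_ev_fam (G := G) (I := ℕ) (f := HSet.num S) (b := fun _ => ⊤)
      (h := Filter.Eventually.of_forall fun g =>
      ⟨fun i => ⟨i, by simp, le_top⟩, fun i => ⟨i, by simp, by simp⟩⟩) N.has_om
      (fun n => N.has_num n) x
    rw [show (⟨.mk ℕ (fun n => (HSet.num S n).1) (fun _ => ⊤), _⟩ : S.HSet) =
      HSet.fam (I := ℕ) (HSet.num S) (fun _ => ⊤) (Filter.Eventually.of_forall fun g =>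
      ⟨fun i => ⟨i, by simp, le_top⟩, fun i => ⟨i, by simp, by simp⟩⟩) from rfl, this]
    simp [G.top]
  refine ⟨⟨⟨G.ev (HSet.num S 0), isNum_ev 0, (key _).2 ⟨0, rfl⟩⟩, fun x hx => ?_⟩, ?_⟩
  · obtain ⟨n, rfl⟩ := (key x).1 hx
    obtain ⟨j, hj, hs⟩ := isNum_ev (G := G) (n + 1)
    refine ⟨G.ev (HSet.num S (n + 1)), ?_, (key _).2 ⟨n + 1, rfl⟩⟩
    rw [num_unique hZ (isNum_ev n) hj]
    exact hs
  · intro w' hw' x hx
    obtain ⟨n, rfl⟩ := (key x).1 hx
    induction n with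
    | zero =>
      obtain ⟨⟨e, he, hew⟩, _⟩ := hw'
      rw [emp_unique hZ (isNum_ev (G := G) 0) he]; exact hew
    | succ n ih =>
      obtain ⟨s, hs, hsw⟩ := hw'.2 _ (ih ((key _).2 ⟨n, rfl⟩))
      obtain ⟨j, hj, hs'⟩ := isNum_ev (G := G) (n + 1)
      rw [← num_unique hZ (isNum_ev n) hj] at hs'
      rw [succ_unique hZ hs' hs]; exact hsw

lemma E_om_iff (x : G.M) : G.E x (G.ev (HSet.om S)) ↔ ∃ n, x = G.ev (HSet.num S n) := by
  constructor
  · intro h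
    obtain ⟨ρ, hρ, rfl⟩ := G.ev_surj x
    rw [E_ev hρ N.has_om] at h
    obtain ⟨k, _, hk2⟩ := mem_el hρ N.has_om h
    exact ⟨k, (ev_eq hρ (N.has_num k)).2 hk2⟩
  · rintro ⟨n, rfl⟩
    exact num_mem_omega G.isZF isOmega_ev (isNum_ev n)

theorem omegaStd (G : Gen N) : OmegaStd G.E := by
  intro w k hw hk
  rw [omega_unique G.isZF hw isOmega_ev] at hk
  obtain ⟨n, rfl⟩ := (E_om_iff k).1 hk
  exact ⟨n, isNum_ev n⟩

end Gen

end SymSys

end Pool.Agent.Lib.SymZF
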