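import Mathlib

set_option autoImplicit false

open Set

namespace Pool.Agent.Lib.SymZF

/-- The complete Boolean algebra of regular elements of a frame. -/
noncomputable instance regCBA (L : Type) [Order.Frame L] :
    CompleteBooleanAlgebra (Heyting.Regular L) where
  __ := (inferInstance : BooleanAlgebra (Heyting.Regular L))
  sSup S := Heyting.Regular.toRegular (sSup (Heyting.Regular.val '' S))
  sInf S := ⟨sInf (Heyting.Regular.val '' S), by
    rw [Heyting.IsRegular]
    apply le_antisymm
    · apply le_sInf
      rintro _ ⟨a, ha, rfl⟩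
      have h1 : sInf (Heyting.Regular.val '' S) ≤ a.val := sInf_le ⟨a, ha, rfl⟩
      have h2 := compl_le_compl (compl_le_compl h1)
      rwa [a.prop.eq] at h2
    · exact le_compl_compl⟩
  isLUB_sSup S := by
    constructor
    · intro a ha
      rw [← Heyting.Regular.coe_le_coe]
      simp only [Heyting.Regular.coe_toRegular]
      have h1 : a.val ∈ Heyting.Regular.val '' S := ⟨a, ha, rfl⟩
      exact (le_sSup h1).trans le_compl_compl
    · intro b hb
      rw [← Heyting.Regular.coe_le_coe]
      simp only [Heyting.Regular.coe_toRegular]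
      have h1 : sSup (Heyting.Regular.val '' S) ≤ b.val := by
        apply sSup_le
        rintro _ ⟨a, ha, rfl⟩
        exact Heyting.Regular.coe_le_coe.2 (hb ha)
      have h2 := compl_le_compl (compl_le_compl h1)
      rwa [b.prop.eq] at h2
  isGLB_sInf S := by
    constructor
    · intro a ha
      rw [← Heyting.Regular.coe_le_coe]
      have h1 : a.val ∈ Heyting.Regular.val '' S := ⟨a, ha, rfl⟩
      exact sInf_le h1
    · intro b hb
      rw [← Heyting.Regular.coe_le_coe]
      apply le_sInf
      rintro _ ⟨a, ha, rfl⟩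
      exact Heyting.Regular.coe_le_coe.2 (hb ha)

/-- The regular open algebra of a preorder (smaller elements are stronger conditions). -/
abbrev RO (P : Type) [Preorder P] : Type := Heyting.Regular (LowerSet P)

section
variable {P : Type} [Preorder P]

lemma mem_compl_iff' (s : LowerSet P) (p : P) : p ∈ sᶜ ↔ ∀ q ≤ p, q ∉ s := by
  constructor
  · intro hp q hq hqs
    have h1 : q ∈ sᶜ := (sᶜ).lower hq hp
    have h2 : q ∈ s ⊓ sᶜ := ⟨hqs, h1⟩
    rw [inf_compl_self] at h2
    exact h2
  · intro h
    have h1 : LowerSet.Iic p ≤ sᶜ := by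
      rw [le_compl_iff_disjoint_right, disjoint_iff_inf_le]
      intro q hq
      exact (h q hq.1 hq.2).elim
    exact h1 (le_refl p)

/-- The canonical map from a preorder to its regular open algebra. -/
noncomputable def emb (p : P) : RO P := Heyting.Regular.toRegular (LowerSet.Iic p)

lemma mem_emb (p q : P) : q ∈ (emb p).val ↔ ∀ r ≤ q, ∃ s ≤ r, s ≤ p := by
  simp only [emb, Heyting.Regular.coe_toRegular]
  rw [mem_compl_iff']
  simp only [mem_compl_iff', not_forall]
  constructor
  · intro h r hr
    obtain ⟨s, hs, hs2⟩ := h r hr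
    exact ⟨s, hs, by simpa using hs2⟩
  · intro h r hr
    obtain ⟨s, hs, hs2⟩ := h r hr
    exact ⟨s, hs, by simpa using hs2⟩

lemma emb_mono {p q : P} (h : p ≤ q) : emb p ≤ emb q :=
  Heyting.Regular.toRegular.monotone (by
    intro r hr; exact le_trans (show r ≤ p from hr) h)

lemma self_mem_emb (p : P) : p ∈ (emb p).val := by
  rw [mem_emb]; exact fun r hr => ⟨r, le_refl r, hr⟩

lemma emb_ne_bot (p : P) : emb p ≠ ⊥ := by
  intro h
  have h1 := self_mem_emb p
  rw [h] at h1
  exact h1

lemma emb_le_iff {p : P} {b : RO P} : emb p ≤ b ↔ p ∈ b.val := by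
  constructor
  · intro h
    exact (Heyting.Regular.coe_le_coe.2 h) (self_mem_emb p)
  · intro h
    have h1 : LowerSet.Iic p ≤ b.val := by
      intro q hq; exact b.val.lower hq h
    have h2 := Heyting.Regular.toRegular.monotone h1
    rwa [Heyting.Regular.toRegular_coe] at h2

lemma exists_emb_le {b : RO P} (h : b ≠ ⊥) : ∃ p : P, emb p ≤ b := by
  by_contra hcon
  push Not at hcon
  apply h
  rw [← le_bot_iff, ← Heyting.Regular.coe_le_coe]
  intro p hp
  exact (hcon p (emb_le_iff.2 hp)).elim

lemma emb_inf_eq_bot {p q : P} (h : ∀ r, r ≤ p → ¬ r ≤ q) : emb p ⊓ emb q = ⊥ := by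
  by_contra hne
  obtain ⟨r, hr⟩ := exists_emb_le hne
  have h1 := emb_le_iff.1 (hr.trans inf_le_left)
  have h2 := emb_le_iff.1 (hr.trans inf_le_right)
  rw [mem_emb] at h1 h2
  obtain ⟨s, hs, hsp⟩ := h1 r le_rfl
  obtain ⟨t, ht, htq⟩ := h2 s hs
  exact h t (ht.trans hsp) htq

/-- The action of an order automorphism on the regular open algebra. -/
noncomputable def roMap (f : P ≃o P) : RO P ≃o RO P where
  toFun b := ⟨LowerSet.map f b.val, by
    have := b.prop.eq
    rw [Heyting.IsRegular]
    conv_rhs => rw [← this]
    rw [map_compl, map_compl]⟩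
  invFun b := ⟨LowerSet.map f.symm b.val, by
    have := b.prop.eq
    rw [Heyting.IsRegular]
    conv_rhs => rw [← this]
    rw [map_compl, map_compl]⟩
  left_inv b := by
    apply Heyting.Regular.coe_injective
    change LowerSet.map f.symm (LowerSet.map f b.val) = b.val
    rw [LowerSet.map_map]
    ext x; simp
  right_inv b := by
    apply Heyting.Regular.coe_injective
    change LowerSet.map f (LowerSet.map f.symm b.val) = b.val
    rw [LowerSet.map_map]
    ext x; simp
  map_rel_iff' {a b} := by
    rw [← Heyting.Regular.coe_le_coe, ← Heyting.Regular.coe_le_coe]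
    exact (LowerSet.map f).le_iff_le

lemma mem_roMap (f : P ≃o P) (b : RO P) (p : P) : p ∈ (roMap f b).val ↔ f.symm p ∈ b.val := by
  change p ∈ LowerSet.map f b.val ↔ _
  rw [LowerSet.mem_map]

lemma roMap_emb (f : P ≃o P) (p : P) : roMap f (emb p) = emb (f p) := by
  apply Heyting.Regular.coe_injective
  ext q
  change q ∈ (roMap f (emb p)).val ↔ q ∈ (emb (f p)).val
  rw [mem_roMap, mem_emb, mem_emb]
  constructor
  · intro h r hr
    obtain ⟨s, hs, hsp⟩ := h (f.symm r) (f.symm.monotone hr)
    exact ⟨f s, by simpa using f.monotone hs, f.monotone hsp⟩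
  · intro h r hr
    obtain ⟨s, hs, hsp⟩ := h (f r) (by simpa using f.monotone hr)
    exact ⟨f.symm s, by simpa using f.symm.monotone hs, by simpa using f.symm.monotone hsp⟩

/-- The action of the automorphism group of a preorder on its regular open algebra. -/
noncomputable def roHom : (P ≃o P) →* (RO P ≃o RO P) where
  toFun := roMap
  map_one' := by
    refine DFunLike.ext _ _ fun b => ?_
    apply Heyting.Regular.coe_injective
    ext p
    exact mem_roMap _ _ _
  map_mul' f g := by
    refine DFunLike.ext _ _ fun b => ?_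
    apply Heyting.Regular.coe_injective
    ext p
    change p ∈ (roMap (f * g) b).val ↔ p ∈ (roMap f (roMap g b)).val
    rw [mem_roMap, mem_roMap, mem_roMap]
    rfl

end

end Pool.Agent.Lib.SymZF
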