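import Mathlib
import Pool.Agent.Lib.SymZF.RO
import Pool.Agent.Lib.SymZF.Model

set_option autoImplicit false

open Set

namespace Pool.Agent.Lib.SymZF

/-- A countable set of facts with a group acting on it; conditions will be finite sets of facts
with pairwise different keys. -/
structure FactSys where
  /-- facts -/
  K : Type
  [cK : Countable K]
  /-- keys -/
  Key : Type
  /-- the key of a fact -/
  key : K → Key
  /-- the group -/
  G : Type
  [grp : Group G]
  /-- the action -/
  ρ : G →* Equiv.Perm K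
  hρ : ∀ (g : G) (x y : K), key x = key y → key (ρ g x) = key (ρ g y)
  /-- the filter -/
  F : Filter G
  conj : ∀ g : G, Filter.Tendsto (fun h => g⁻¹ * h * g) F F

attribute [instance] FactSys.cK FactSys.grp

namespace FactSys

variable (Q : FactSys)

/-- The conditions. -/
@[ext] structure P where
  /-- the finite set of facts -/
  s : Finset Q.K
  inj : ∀ x ∈ s, ∀ y ∈ s, Q.key x = Q.key y → x = y

instance : PartialOrder Q.P where
  le p q := q.s ⊆ p.s
  le_refl p := Finset.Subset.refl _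
  le_trans p q r h1 h2 := Finset.Subset.trans h2 h1
  le_antisymm p q h1 h2 := P.ext (Finset.Subset.antisymm h2 h1)

lemma le_def (p q : Q.P) : p ≤ q ↔ q.s ⊆ p.s := Iff.rfl

instance : Countable Q.P := by
  have h : Function.Injective (P.s : Q.P → Finset Q.K) := fun p q h => P.ext h
  exact h.countable

/-- The action on the conditions. -/
def actP (g : Q.G) (p : Q.P) : Q.P where
  s := p.s.map (Q.ρ g).toEmbedding
  inj := by
    intro x hx y hy h
    rw [Finset.mem_map_equiv] at hx hy
    have h1 := Q.hρ g⁻¹ x y h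
    have e : ∀ z, Q.ρ g⁻¹ z = (Q.ρ g).symm z := fun z => by rw [map_inv]; rfl
    rw [e, e] at h1
    exact (Q.ρ g).symm.injective (p.inj _ hx _ hy h1)

lemma mem_actP (g : Q.G) (p : Q.P) (x : Q.K) : x ∈ (Q.actP g p).s ↔ Q.ρ g⁻¹ x ∈ p.s := by
  rw [actP, Finset.mem_map_equiv, map_inv]; rfl

lemma mem_actP' (g : Q.G) (p : Q.P) (x : Q.K) : Q.ρ g x ∈ (Q.actP g p).s ↔ x ∈ p.s := by
  rw [mem_actP, map_inv]
  simp

lemma actP_mul (g h : Q.G) (p : Q.P) : Q.actP (g * h) p = Q.actP g (Q.actP h p) := by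
  apply P.ext
  ext x
  rw [mem_actP, mem_actP, mem_actP, mul_inv_rev, map_mul]
  rfl

lemma actP_one (p : Q.P) : Q.actP 1 p = p := by
  apply P.ext
  ext x
  rw [mem_actP]
  simp

/-- The action as a homomorphism. -/
def actHom : Q.G →* (Q.P ≃o Q.P) where
  toFun g :=
    { toFun := Q.actP g
      invFun := Q.actP g⁻¹
      left_inv := fun p => by rw [← actP_mul, inv_mul_cancel, actP_one]
      right_inv := fun p => by rw [← actP_mul, mul_inv_cancel, actP_one]
      map_rel_iff' := by
        intro p q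
        change (Q.actP g q).s ⊆ (Q.actP g p).s ↔ q.s ⊆ p.s
        exact Finset.map_subset_map }
  map_one' := by
    refine DFunLike.ext _ _ fun p => ?_
    exact Q.actP_one p
  map_mul' g h := by
    refine DFunLike.ext _ _ fun p => ?_
    exact Q.actP_mul g h p

/-- The symmetric system. -/
noncomputable def sys : SymSys where
  B := RO Q.P
  G := Q.G
  α := roHom.comp Q.actHom
  F := Q.F
  conj := Q.conj

/-- The dense subset. -/
noncomputable def dsub : DSub Q.sys where
  P := Q.P
  e := emb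
  ne := emb_ne_bot
  dense _ h := exists_emb_le h

variable {Q}

/-- The Boolean value of a condition. -/
noncomputable def eb (p : Q.P) : Q.sys.B := emb p

lemma eb_ne_bot (p : Q.P) : eb p ≠ ⊥ := emb_ne_bot p

lemma exists_eb_le {b : Q.sys.B} (h : b ≠ ⊥) : ∃ p : Q.P, eb p ≤ b := exists_emb_le h

lemma eb_mono {p q : Q.P} (h : p ≤ q) : eb p ≤ eb q := emb_mono h

lemma α_eb (g : Q.G) (p : Q.P) : Q.sys.α g (eb p) = eb (Q.actP g p) := roMap_emb _ _

/-- A single fact as a condition. -/
def single (x : Q.K) : Q.P where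
  s := {x}
  inj := by simp only [Finset.mem_singleton]; rintro _ rfl _ rfl _; rfl

/-- The Boolean value of a fact. -/
noncomputable def fact (x : Q.K) : Q.sys.B := eb (single x)

lemma actP_single (g : Q.G) (x : Q.K) : Q.actP g (single x) = single (Q.ρ g x) := by
  apply P.ext
  simp [actP, single]

lemma α_fact (g : Q.G) (x : Q.K) : Q.sys.α g (fact x) = fact (Q.ρ g x) := by
  rw [fact, α_eb, actP_single]; rfl

lemma eb_le_fact {p : Q.P} {x : Q.K} (h : x ∈ p.s) : eb p ≤ fact x :=
  eb_mono (by rw [le_def]; simpa [single] using h)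

lemma mem_of_le {P : Type} [Preorder P] {a b : RO P} (h : a ≤ b) {p : P} (hp : p ∈ a.val) :
    p ∈ b.val := (Heyting.Regular.coe_le_coe.2 h) hp

/-- Compatible conditions. -/
def Compat (p q : Q.P) : Prop := ∀ x ∈ p.s, ∀ y ∈ q.s, Q.key x = Q.key y → x = y

open Classical in
/-- The union of compatible conditions. -/
noncomputable def union (p q : Q.P) (h : Compat p q) : Q.P where
  s := p.s ∪ q.s
  inj := by
    intro x hx y hy hxy
    rcases Finset.mem_union.1 hx with hx | hx <;> rcases Finset.mem_union.1 hy with hy | hy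
    · exact p.inj x hx y hy hxy
    · exact h x hx y hy hxy
    · exact (h y hy x hx hxy.symm).symm
    · exact q.inj x hx y hy hxy

lemma mem_union {p q : Q.P} (h : Compat p q) (x : Q.K) :
    x ∈ (union p q h).s ↔ x ∈ p.s ∨ x ∈ q.s := by
  classical
  rw [union]; simp

lemma union_le_left {p q : Q.P} (h : Compat p q) : union p q h ≤ p := by
  intro x hx; rw [mem_union]; exact Or.inl hx

lemma union_le_right {p q : Q.P} (h : Compat p q) : union p q h ≤ q := by
  intro x hx; rw [mem_union]; exact Or.inr hx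

lemma le_union {p q r : Q.P} (h : Compat p q) (h1 : r ≤ p) (h2 : r ≤ q) : r ≤ union p q h := by
  intro x hx
  rw [mem_union] at hx
  rcases hx with hx | hx
  · exact h1 hx
  · exact h2 hx

lemma compat_of_le {p q r : Q.P} (h1 : r ≤ p) (h2 : r ≤ q) : Compat p q :=
  fun x hx y hy hxy => r.inj x (h1 hx) y (h2 hy) hxy

lemma eb_union {p q : Q.P} (h : Compat p q) : eb (union p q h) = eb p ⊓ eb q := by
  apply le_antisymm
  · exact le_inf (eb_mono (union_le_left h)) (eb_mono (union_le_right h))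
  · change (emb p ⊓ emb q : RO Q.P) ≤ emb (union p q h)
    rw [← Heyting.Regular.coe_le_coe]
    intro r hr
    have h1 : r ∈ (emb p).val := mem_of_le (a := (emb p ⊓ emb q : RO Q.P)) inf_le_left hr
    have h2 : r ∈ (emb q).val := mem_of_le (a := (emb p ⊓ emb q : RO Q.P)) inf_le_right hr
    change r ∈ (emb (union p q h)).val
    rw [mem_emb] at h1 h2 ⊢
    intro t ht
    obtain ⟨u, hu, hup⟩ := h1 t ht
    obtain ⟨v, hv, hvq⟩ := h2 u (hu.trans ht)
    exact ⟨v, hv.trans hu, le_union h (hv.trans hup) hvq⟩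

lemma eb_inf_eq_bot {p q : Q.P} (h : ¬ Compat p q) : eb p ⊓ eb q = ⊥ :=
  emb_inf_eq_bot fun _ h1 h2 => h (compat_of_le h1 h2)

lemma compat_of_ne_bot {p q : Q.P} (h : eb p ⊓ eb q ≠ ⊥) : Compat p q := by
  by_contra hcon; exact h (eb_inf_eq_bot hcon)

lemma fact_inf_fact {x y : Q.K} (h : Q.key x = Q.key y) (hne : x ≠ y) : fact x ⊓ fact y = ⊥ :=
  eb_inf_eq_bot fun hc => hne (hc x (by simp [single]) y (by simp [single]) h)

/-- If a condition lies below the Boolean value of `p`, then some extension extends `p`. -/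
lemma exists_le_of_eb_le {p q : Q.P} (h : eb q ≤ eb p) : ∃ r, r ≤ q ∧ r ≤ p := by
  have h1 : q ∈ (emb p).val := emb_le_iff.1 h
  rw [mem_emb] at h1
  obtain ⟨s, h2, h3⟩ := h1 q le_rfl
  exact ⟨s, h2, h3⟩

/-- Below a condition and a compatible Boolean value. -/
lemma exists_le_of_inf_ne_bot {q : Q.P} {b : Q.sys.B} (h : eb q ⊓ b ≠ ⊥) :
    ∃ r, r ≤ q ∧ eb r ≤ b := by
  obtain ⟨t, ht⟩ := exists_eb_le h
  obtain ⟨r, h1, h2⟩ := exists_le_of_eb_le (ht.trans inf_le_left)
  exact ⟨r, h2, (eb_mono h1).trans (ht.trans inf_le_right)⟩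

lemma exists_le_of_le_iSup {ι : Sort*} {q : Q.P} {b : ι → Q.sys.B} (h : eb q ≤ ⨆ i, b i) :
    ∃ r i, r ≤ q ∧ eb r ≤ b i := by
  by_contra hcon
  push Not at hcon
  apply eb_ne_bot q
  rw [← le_bot_iff]
  calc eb q ≤ eb q ⊓ ⨆ i, b i := le_inf le_rfl h
    _ ≤ ⊥ := by
      rw [inf_iSup_eq]
      refine iSup_le fun i => ?_
      by_contra hne
      obtain ⟨r, h1, h2⟩ := exists_le_of_inf_ne_bot (fun h => hne (le_of_eq h))
      exact hcon r i h1 h2

/-- A Boolean value is below another one as soon as no condition separates them. -/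
lemma le_of_forall {a b : Q.sys.B} (h : ∀ q : Q.P, eb q ≤ a → ∃ r, r ≤ q ∧ eb r ≤ b) :
    a ≤ b := by
  by_contra hcon
  rw [← disjoint_compl_right_iff, disjoint_iff] at hcon
  obtain ⟨p, hp⟩ := exists_eb_le hcon
  obtain ⟨r, h1, h2⟩ := h p (hp.trans inf_le_left)
  apply eb_ne_bot r
  rw [← le_bot_iff]
  calc eb r ≤ b ⊓ bᶜ := le_inf h2 ((eb_mono h1).trans (hp.trans inf_le_right))
    _ ≤ ⊥ := by simp

end FactSys

end Pool.Agent.Lib.SymZF
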