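import Mathlib
import Pool.Agent.Lib.SymZF.Force
import Pool.Agent.Lib.SymZF.Eval

set_option autoImplicit false

open Set

namespace Pool.Agent.Lib.SymZF

namespace SymSys.HSet

variable {S : SymSys}

lemma num_lt (k n : ℕ) (h : k < n) : (HSet.num S k).mem (HSet.num S n) = ⊤ := by
  induction n with
  | zero => omega
  | succ n ih =>
    rw [mem_num_succ]
    rcases Nat.lt_succ_iff_lt_or_eq.1 h with h | rfl
    · rw [ih h, top_sup_eq]
    · rw [eq_refl, sup_top_eq]

lemma num_ge (n : ℕ) : ∀ k, n ≤ k → (HSet.num S k).mem (HSet.num S n) = ⊥ := by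
  induction n with
  | zero => intro k _; exact mem_num_zero _
  | succ n ih =>
    intro k hk
    rw [mem_num_succ, ih k (by omega), bot_sup_eq]
    have h1 := mem_congr_right (HSet.num S n) (HSet.num S k) (HSet.num S n)
    rw [num_lt n k (by omega), inf_top_eq, ih n le_rfl] at h1
    exact le_bot_iff.1 h1

lemma num_eq_bot {k n : ℕ} (h : k ≠ n) : (HSet.num S k).eq (HSet.num S n) = ⊥ := by
  wlog hlt : k < n generalizing k n
  · rw [eq_symm]
    exact this h.symm (by omega)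
  have h1 := mem_congr_right (HSet.num S k) (HSet.num S n) (HSet.num S k)
  rw [num_lt k n hlt, inf_top_eq, num_ge k k le_rfl, eq_symm] at h1
  exact le_bot_iff.1 h1

lemma mem_smul_fam {I : Type} (f : I → S.HSet) (b : I → S.B) (h) (g : S.G) (w : S.HSet) :
    w.mem ((HSet.fam f b h).smul g) = ⨆ i, S.α g (b i) ⊓ w.eq ((f i).smul g) := rfl

end SymSys.HSet

open SymSys FactSys

/-- A fact system with bits of reals indexed by `A × ℕ`. -/
structure RealSys where
  /-- the fact system -/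
  Q : FactSys
  /-- the index set of atoms -/
  A : Type
  [cA : Countable A]
  /-- bits -/
  bit : A × ℕ → ℕ → Bool → Q.K
  bit_key : ∀ x k b x' k' b', Q.key (bit x k b) = Q.key (bit x' k' b') ↔ x = x' ∧ k = k'
  bit_ne : ∀ x k, bit x k true ≠ bit x k false
  /-- action on `A × ℕ` -/
  gx : Q.G →* Equiv.Perm (A × ℕ)
  /-- action on `A` -/
  gπ : Q.G →* Equiv.Perm A
  gx_fst : ∀ g x, (gx g x).1 = gπ g x.1
  ρ_bit : ∀ g x k b, Q.ρ g (bit x k b) = bit (gx g x) k b
  ev_fix : ∀ x, ∀ᶠ g in Q.F, gx g x = x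

attribute [instance] RealSys.cA

namespace RealSys

variable (R : RealSys)

/-- The symmetric system. -/
noncomputable abbrev S : SymSys := R.Q.sys

lemma bit_inj {x : R.A × ℕ} {k : ℕ} {b b' : Bool} (h : R.bit x k b = R.bit x k b') : b = b' := by
  cases b <;> cases b'
  · rfl
  · exact (R.bit_ne x k h.symm).elim
  · exact (R.bit_ne x k h).elim
  · rfl

/-- The name of the real with index `x`. -/
noncomputable def xr (x : R.A × ℕ) : R.S.HSet :=
  HSet.fam (S := R.S) (fun k => HSet.num R.S k) (fun k => fact (R.bit x k true)) (by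
    refine (R.ev_fix x).mono fun g hg => ?_
    have h1 : ∀ k, R.S.α g (fact (R.bit x k true)) = fact (R.bit x k true) := by
      intro k
      rw [α_fact, R.ρ_bit, hg]
    exact ⟨fun i => ⟨i, by simp, (h1 i).le⟩, fun i => ⟨i, by simp, (h1 i).ge⟩⟩)

lemma smul_xr (g : R.Q.G) (x : R.A × ℕ) : (R.xr x).smul (S := R.S) g = R.xr (R.gx g x) := by
  apply HSet.ext
  change R.S.act g (.mk ℕ _ _) = .mk ℕ _ _
  rw [SymSys.act_mk]
  congr 1
  · funext k; exact SymSys.act_num (S := R.S) g k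
  · funext k
    rw [α_fact, R.ρ_bit]

lemma mem_xr (w : R.S.HSet) (x : R.A × ℕ) :
    w.mem (R.xr x) = ⨆ k, fact (R.bit x k true) ⊓ w.eq (HSet.num R.S k) := rfl

lemma num_mem_xr (k : ℕ) (x : R.A × ℕ) :
    (HSet.num R.S k).mem (R.xr x) = fact (R.bit x k true) := by
  rw [mem_xr]
  apply le_antisymm
  · refine iSup_le fun j => ?_
    by_cases h : k = j
    · subst h; exact inf_le_left
    · rw [HSet.num_eq_bot h, inf_bot_eq]; exact bot_le
  · exact le_iSup_of_le k (by simp)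

lemma exists_fresh (p : R.Q.P) (x : R.A × ℕ) :
    ∃ n : ℕ, ∀ k ≥ n, ∀ b, ∀ y ∈ p.s, R.Q.key y ≠ R.Q.key (R.bit x k b) := by
  classical
  have hfin : {k | ∃ b, ∃ y ∈ p.s, R.Q.key y = R.Q.key (R.bit x k b)}.Finite := by
    have h1 : {k | ∃ b, ∃ y ∈ p.s, R.Q.key y = R.Q.key (R.bit x k b)} ⊆
        ⋃ y ∈ p.s, {k | ∃ b, R.Q.key y = R.Q.key (R.bit x k b)} := by
      rintro k ⟨b, y, hy, h⟩
      exact Set.mem_biUnion (Finset.mem_coe.2 hy) ⟨b, h⟩
    refine Set.Finite.subset (Set.Finite.biUnion (Finset.finite_toSet _) fun y _ => ?_) h1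
    refine Set.Subsingleton.finite ?_
    rintro k ⟨b, hb⟩ k' ⟨b', hb'⟩
    exact ((R.bit_key _ _ _ _ _ _).1 (hb.symm.trans hb')).2
  obtain ⟨n, hn⟩ := hfin.bddAbove
  refine ⟨n + 1, fun k hk b y hy h => ?_⟩
  have := hn (show k ∈ _ from ⟨b, y, hy, h⟩)
  omega

/-- add a fact with a new key -/
lemma exists_add (Q : FactSys) (p : Q.P) (x : Q.K) (h : ∀ y ∈ p.s, Q.key y ≠ Q.key x) :
    ∃ r : Q.P, r ≤ p ∧ x ∈ r.s ∧ ∀ y ∈ r.s, y ∈ p.s ∨ y = x := by
  have hc : Compat p (single x) := by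
    intro y hy z hz hyz
    rw [single, Finset.mem_singleton] at hz
    subst hz
    exact (h y hy hyz).elim
  refine ⟨FactSys.union p (single x) hc, union_le_left hc, ?_, ?_⟩
  · rw [FactSys.mem_union]; right; simp [single]
  · intro y hy
    rw [FactSys.mem_union] at hy
    rcases hy with hy | hy
    · exact Or.inl hy
    · right; simpa [single] using hy

lemma xr_eq_bot {x y : R.A × ℕ} (h : x ≠ y) : (R.xr x).eq (R.xr y) = ⊥ := by
  by_contra hne
  obtain ⟨p, hp⟩ := exists_eb_le hne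
  obtain ⟨n, hn⟩ := R.exists_fresh p x
  obtain ⟨m, hm⟩ := R.exists_fresh p y
  set k := max n m with hk
  obtain ⟨r, hr1, hr2, hr3⟩ := exists_add R.Q p (R.bit x k true)
    (hn k (le_max_left _ _) true)
  obtain ⟨s, hs1, hs2, hs3⟩ := exists_add R.Q r (R.bit y k false) (by
    intro z hz
    rcases hr3 z hz with hz | rfl
    · exact hm k (le_max_right _ _) false z hz
    · rw [Ne, R.bit_key]
      exact fun h' => h h'.1)
  apply eb_ne_bot s
  rw [← le_bot_iff]
  have h1 : eb s ≤ fact (R.bit x k true) := eb_le_fact (hs1 hr2)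
  have h2 : eb s ≤ fact (R.bit y k false) := eb_le_fact hs2
  have h3 : eb s ≤ (R.xr x).eq (R.xr y) := (eb_mono (hs1.trans hr1)).trans hp
  have h4 : (R.xr x).eq (R.xr y) ⊓ (HSet.num R.S k).mem (R.xr x) ≤
    (HSet.num R.S k).mem (R.xr y) := HSet.mem_congr_right _ _ _
  rw [num_mem_xr, num_mem_xr] at h4
  have h5 : eb s ≤ fact (R.bit y k true) := (le_inf h3 h1).trans h4
  have h6 : fact (R.bit y k true) ⊓ fact (R.bit y k false) = ⊥ :=
    fact_inf_fact ((R.bit_key _ _ _ _ _ _).2 ⟨rfl, rfl⟩) (R.bit_ne y k)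
  rw [← h6]
  exact le_inf h5 h2

/-- the fibre bijection -/
lemma gx_surj (g : R.Q.G) (a : R.A) (m : ℕ) : ∃ n, R.gx g (a, n) = (R.gπ g a, m) := by
  obtain ⟨⟨b, n⟩, h⟩ := (R.gx g).surjective (R.gπ g a, m)
  have h1 := R.gx_fst g (b, n)
  rw [h] at h1
  have h2 : a = b := (R.gπ g).injective h1
  subst h2
  exact ⟨n, h⟩

lemma gx_eta (g : R.Q.G) (a : R.A) (n : ℕ) : R.gx g (a, n) = (R.gπ g a, (R.gx g (a, n)).2) :=
  Prod.ext (R.gx_fst g (a, n)) rfl

lemma ev_fixA (a : R.A) : ∀ᶠ g in R.Q.F, R.gπ g a = a := by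
  refine (R.ev_fix (a, 0)).mono fun g hg => ?_
  have := R.gx_fst g (a, 0)
  rw [hg] at this
  exact this.symm

/-- The name of the atom with index `a`: the set of its reals. -/
noncomputable def xa (a : R.A) : R.S.HSet :=
  HSet.fam (S := R.S) (fun n => R.xr (a, n)) (fun _ => ⊤) (by
    refine (R.ev_fixA a).mono fun g hg => ⟨fun i => ⟨(R.gx g (a, i)).2, ?_, le_top⟩,
      fun j => ?_⟩
    · rw [smul_xr, gx_eta, hg]
      exact HSet.eq_refl _
    · obtain ⟨n, hn⟩ := R.gx_surj g a j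
      refine ⟨n, ?_, by simp⟩
      rw [smul_xr, hn, hg]
      exact HSet.eq_refl _)

lemma mem_xa (w : R.S.HSet) (a : R.A) : w.mem (R.xa a) = ⨆ n, w.eq (R.xr (a, n)) := by
  rw [xa, HSet.mem_fam]
  exact iSup_congr fun n => by rw [top_inf_eq]

lemma mem_smul_xa (g : R.Q.G) (w : R.S.HSet) (a : R.A) :
    w.mem ((R.xa a).smul (S := R.S) g) = w.mem (R.xa (R.gπ g a)) := by
  rw [mem_xa, xa, HSet.mem_smul_fam]
  simp only [smul_xr, map_top, top_inf_eq]
  apply le_antisymm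
  · refine iSup_le fun n => le_iSup_of_le (R.gx g (a, n)).2 ?_
    rw [← gx_eta]
  · refine iSup_le fun m => ?_
    obtain ⟨n, hn⟩ := R.gx_surj g a m
    refine le_iSup_of_le n ?_
    rw [hn]

lemma smul_xa (g : R.Q.G) (a : R.A) :
    ((R.xa a).smul (S := R.S) g).eq (R.xa (R.gπ g a)) = ⊤ := by
  rw [eq_top_iff]
  refine HSet.le_eq (fun z => ?_) (fun z => ?_)
  · rw [mem_smul_xa]; exact inf_le_right
  · rw [mem_smul_xa]; exact inf_le_right

lemma xa_eq_bot {a b : R.A} (h : a ≠ b) : (R.xa a).eq (R.xa b) = ⊥ := by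
  have h1 := HSet.mem_congr_right (R.xr (a, 0)) (R.xa a) (R.xa b)
  have h2 : (R.xr (a, 0)).mem (R.xa a) = ⊤ := by
    rw [mem_xa, eq_top_iff]
    exact le_iSup_of_le 0 (by simp)
  have h3 : (R.xr (a, 0)).mem (R.xa b) = ⊥ := by
    rw [mem_xa, iSup_eq_bot]
    intro n
    apply xr_eq_bot
    intro h'
    exact h (congrArg Prod.fst h')
  rw [h2, inf_top_eq, h3] at h1
  exact le_bot_iff.1 h1

/-- The name of the set of atoms with index in `Y`. -/
noncomputable def st (Y : Set R.A) (hY : ∀ᶠ g in R.Q.F, R.gπ g '' Y = Y) : R.S.HSet :=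
  HSet.fam (S := R.S) (fun a : Y => R.xa a) (fun _ => ⊤) (by
    refine hY.mono fun g hg => ⟨fun i => ?_, fun j => ?_⟩
    · refine ⟨⟨R.gπ g i, ?_⟩, R.smul_xa g i, le_top⟩
      exact hg.subset (mem_image_of_mem _ i.2)
    · have h1 : (j : R.A) ∈ R.gπ g '' Y := by rw [hg]; exact j.2
      obtain ⟨i, hi, hij⟩ := h1
      refine ⟨⟨i, hi⟩, ?_, by simp⟩
      rw [← hij]
      exact R.smul_xa g i)

lemma mem_st (w : R.S.HSet) (Y : Set R.A) (hY) :
    w.mem (R.st Y hY) = ⨆ a : Y, w.eq (R.xa a) := by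
  rw [st, HSet.mem_fam]
  exact iSup_congr fun n => by rw [top_inf_eq]

lemma smul_st (g : R.Q.G) (Y Y' : Set R.A) (hY hY') (h : R.gπ g '' Y = Y') :
    ((R.st Y hY).smul (S := R.S) g).eq (R.st Y' hY') = ⊤ := by
  have key : ∀ z : R.S.HSet, z.mem ((R.st Y hY).smul (S := R.S) g) = z.mem (R.st Y' hY') := by
    intro z
    rw [mem_st, st, HSet.mem_smul_fam]
    apply le_antisymm
    · refine iSup_le fun a => ?_
      refine le_iSup_of_le (⟨R.gπ g a, by rw [← h]; exact mem_image_of_mem _ a.2⟩ : Y') ?_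
      rw [HSet.eq_symm z ((R.xa a).smul (S := R.S) g),
        HSet.eq_of_eq_top_left (R.smul_xa g a), HSet.eq_symm]
      exact inf_le_right
    · refine iSup_le fun b => ?_
      obtain ⟨b, hb⟩ := b
      have hb' := hb
      rw [← h] at hb'
      obtain ⟨a, ha, rfl⟩ := hb'
      refine le_iSup_of_le (⟨a, ha⟩ : Y) ?_
      rw [HSet.eq_symm z ((R.xa a).smul (S := R.S) g),
        HSet.eq_of_eq_top_left (R.smul_xa g a), HSet.eq_symm]
      simp
  rw [eq_top_iff]
  refine HSet.le_eq (fun z => ?_) (fun z => ?_)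
  · rw [key]; exact inf_le_right
  · rw [key]; exact inf_le_right

end RealSys

end Pool.Agent.Lib.SymZF
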