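import Mathlib
import Pool.Agent.Lib.SymZF.Reals

set_option autoImplicit false

open Set

namespace Pool.Agent.Lib.SymZF

namespace SymSys

variable {S : SymSys}

/-- Countable closed sets of names containing a countable family. -/
theorem exists_names_fam (D : DSub S) {J : Type} [Countable J] (c : J → S.HSet) :
    ∃ N : Names D, ∀ j, N.has (c j) := by
  obtain ⟨e, he⟩ := exists_surjective_nat (Option J)
  obtain ⟨N, hN, _⟩ := exists_names D (fun n => (e n).elim (HSet.num S 0) c)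
    (fun _ _ => HSet.num S 0)
  refine ⟨N, fun j => ?_⟩
  obtain ⟨n, hn⟩ := he (some j)
  obtain ⟨k, hk⟩ := hN n
  refine ⟨k, ?_⟩
  rw [hk, hn]
  rfl

lemma bval_smul (g : S.G) (φ : Fml) (v v' : ℕ → S.HSet)
    (h : ∀ i < φ.bd, ((v i).smul g).eq (v' i) = ⊤) : bval φ v' = S.α g (bval φ v) := by
  rw [← bval_act]
  apply le_antisymm
  · have := bval_congr_bd φ v' (fun i => (v i).smul g) ⊤ (fun i hi => by
      rw [← h i hi, HSet.eq_symm]; exact le_rfl)
    rwa [top_inf_eq] at this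
  · have := bval_congr_bd φ (fun i => (v i).smul g) v' ⊤ (fun i hi => by
      rw [← h i hi]; exact le_rfl)
    rwa [top_inf_eq] at this

lemma HSet.pair_congr (x x' y y' : S.HSet) :
    x.eq x' ⊓ y.eq y' ≤ (x.pair y).eq (x'.pair y') := by
  refine HSet.le_eq (fun z => ?_) (fun z => ?_)
  · rw [HSet.mem_pair, HSet.mem_pair, inf_sup_left]
    refine sup_le_sup ?_ ?_
    · rw [inf_comm]
      exact (inf_le_inf_left _ inf_le_left).trans (HSet.eq_trans _ _ _)
    · rw [inf_comm]
      exact (inf_le_inf_left _ inf_le_right).trans (HSet.eq_trans _ _ _)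
  · rw [HSet.mem_pair, HSet.mem_pair, inf_sup_left]
    refine sup_le_sup ?_ ?_
    · rw [inf_comm, HSet.eq_symm x x']
      exact (inf_le_inf_left _ inf_le_left).trans (HSet.eq_trans _ _ _)
    · rw [inf_comm, HSet.eq_symm y y']
      exact (inf_le_inf_left _ inf_le_right).trans (HSet.eq_trans _ _ _)

lemma HSet.opair_congr (x x' y y' : S.HSet) :
    x.eq x' ⊓ y.eq y' ≤ (x.opair y).eq (x'.opair y') := by
  refine le_trans ?_ (HSet.pair_congr _ _ _ _)
  refine le_inf ?_ (HSet.pair_congr _ _ _ _)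
  refine le_trans ?_ (HSet.pair_congr _ _ _ _)
  exact le_inf inf_le_left inf_le_left

namespace Gen

variable {D : DSub S} {N : Names D} {G : Gen N}

lemma dec' (G : Gen N) (φ : Fml) (v : ℕ → S.HSet) (hv : ∀ i, N.has (v i)) :
    bval φ v ∈ G.U ∨ (bval φ v)ᶜ ∈ G.U := by
  choose s hs using hv
  have e : v = fun i => N.ν (s i) := by funext i; exact (hs i).symm
  subst e
  exact G.dec φ s

end Gen

end SymSys

open SymSys FactSys

namespace RealSys

variable (R : RealSys)

section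

variable {R} {N : Names R.Q.dsub} {G : Gen N}

lemma ev_xa_inj {a b : R.A} (ha : N.has (R.xa a)) (hb : N.has (R.xa b))
    (h : G.ev (R.xa a) = G.ev (R.xa b)) : a = b := by
  by_contra hne
  rw [Gen.ev_eq ha hb, R.xa_eq_bot hne] at h
  exact G.bot h

lemma E_ev_st {Y : Set R.A} {hY} (h : N.has (R.st Y hY)) (hx : ∀ a, N.has (R.xa a)) (x : G.M) :
    G.E x (G.ev (R.st Y hY)) ↔ ∃ a ∈ Y, x = G.ev (R.xa a) := by
  rw [st, Gen.E_ev_fam h (fun a => hx a)]
  constructor
  · rintro ⟨a, _, ha⟩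
    exact ⟨a, a.2, ha⟩
  · rintro ⟨a, ha, h⟩
    exact ⟨⟨a, ha⟩, G.top, h⟩

end

end RealSys

end Pool.Agent.Lib.SymZF
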