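import Mathlib
import Pool.Agent.Lib.SymZF.IntDefs

set_option autoImplicit false

namespace Pool.Agent.Lib.SymZF

section
variable {M : Type} (E : M → M → Prop)

/-- the class `{t | P t}` is (the extension of) a finite set of the model -/
def FinClass (P : M → Prop) : Prop := ∃ d, (∀ t, E t d ↔ P t) ∧ IsFin E d

/-- condition 1: `F` is a nonempty family of infinite subsets of `A` closed under (binary, hence
finite) unions and intersections; in particular it is a filterbase in `A` -/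
def GoodFamily (A F : M) : Prop :=
  (∃ U, E U F) ∧ (∀ U, E U F → Sub E U A ∧ ¬ IsFin E U) ∧
    ∀ U W, E U F → E W F → (∃ c, E c F ∧ ∀ t, E t c ↔ E t U ∨ E t W) ∧
      (∃ c, E c F ∧ ∀ t, E t c ↔ E t U ∧ E t W)

/-- `f` is the function `(n, i) ↦ V n i` on the set of pairs with `1 ≤ n`, `1 ≤ i ≤ 2 ^ n` -/
def IsDyadic (f : M) (V : ℕ → ℕ → M) : Prop :=
  ∀ p, E p f ↔ ∃ n i : ℕ, 1 ≤ n ∧ 1 ≤ i ∧ i ≤ 2 ^ n ∧
    ∃ n' i' q, IsNum E n n' ∧ IsNum E i i' ∧ IsOPair E n' i' q ∧ IsOPair E q (V n i) p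

/-- conditions 1 to 4 for the family `V` and the number `n` -/
def DyadicConds (A : M) (V : ℕ → ℕ → M) (n : ℕ) : Prop :=
  (∀ i, 1 ≤ i → i ≤ 2 ^ n → GoodFamily E A (V n i)) ∧
  (∀ i, 1 ≤ i → i ≤ 2 ^ n → ∀ U W, E U (V n i) → E W (V n i) →
    FinClass E (fun t => E t U ∧ ¬ E t W)) ∧
  (∀ i j, 1 ≤ i → i ≤ 2 ^ n → 1 ≤ j → j ≤ 2 ^ n → i ≠ j → ∀ W H, E W (V n i) → E H (V n j) →
    ∃ U U', E U (V (n + 1) (2 * i - 1)) ∧ E U' (V (n + 1) (2 * i)) ∧
      FinClass E (fun t => (E t U ∨ E t U') ∧ ¬ E t W) ∧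
      FinClass E (fun t => (E t U ∨ E t U') ∧ E t H)) ∧
  (∀ c : ℕ → M, (∀ i, 1 ≤ i → i ≤ 2 ^ n → E (c i) (V n i)) →
    FinClass E (fun t => E t A ∧ ∀ i, 1 ≤ i → i ≤ 2 ^ n → ¬ E t (c i)))

/-- `A` is dyadically filterbase infinite in the model `(M, E)` (with standard `ω`) -/
def DyadicallyFilterbaseInfinite (A : M) : Prop :=
  ∃ (f : M) (V : ℕ → ℕ → M), IsDyadic E f V ∧ ∀ n, 1 ≤ n → DyadicConds E A V n

/-- `A` is weakly Dedekind-finite in the model `(M, E)`: there is no injection from `ω` into the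
power set of `A` -/
def WeaklyDedekindFinite (A : M) : Prop :=
  ∀ w P, IsOmega E w → (∀ z, E z P ↔ Sub E z A) → ¬ ∃ f, IsInj E f w P

end

end Pool.Agent.Lib.SymZF
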